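import Pool.Agent.W_7d29a1_h42.LuckRec

/-!
The truncated variance is bounded by the stopped energy.
-/

namespace Pool.Agent.W_7d29a1_h42

open MeasureTheory Set

noncomputable section

variable {ν : Measure ℝ} [IsProbabilityMeasure ν] {M : ℝ}

lemma am_swap {xm β c2 : ℝ} {N : ℕ} {g : Fin (N + 1) → (Fin (N + 1) → ℝ) → ℝ}
    (hg : GD ν xm β c2 (N + 1) g) :
    Integrable (fun z => ∫ t, g 0 (cn t z) ∂ν) (PN ν N) ∧ am ν g = ∫ z, ∫ t, g 0 (cn t z) ∂ν ∂(PN ν N) := by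
  have hmeas : Measurable fun p : ℝ × (Fin N → ℝ) => g 0 (cn p.1 p.2) :=
    (hg.meas 0).comp measurable_cn
  have hint : Integrable (fun p : ℝ × (Fin N → ℝ) => g 0 (cn p.1 p.2)) (ν.prod (PN ν N)) := by
    refine (integrable_const β).mono' hmeas.aestronglyMeasurable
      (Filter.Eventually.of_forall fun p => ?_)
    rw [Real.norm_eq_abs, abs_of_nonneg (hg.nonneg _ _)]
    exact hg.le _ _
  refine ⟨hint.integral_prod_right, ?_⟩
  rw [am, int_cn (hg.int 0)]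
  exact integral_integral_swap hint

/-- The oscillation in one coordinate is controlled by the mean derivative. -/
def Osc (ν : Measure ℝ) (φ : ℝ → ℝ) (N : ℕ) (g : Fin N → (Fin N → ℝ) → ℝ) (F : (Fin N → ℝ) → ℝ) : Prop :=
  ∀ i x s s', |F (Function.update x i s) - F (Function.update x i s')| ≤
    φ s * φ s' * ∫ t, g i (Function.update x i t) ∂ν

omit [IsProbabilityMeasure ν] in
lemma Osc.sec {φ : ℝ → ℝ} {N : ℕ} {g : Fin (N + 1) → (Fin (N + 1) → ℝ) → ℝ} {F : (Fin (N + 1) → ℝ) → ℝ}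
    (h : Osc ν φ (N + 1) g F) (x : ℝ) : Osc ν φ N (sg g x) fun z => F (cn x z) := by
  intro i z s s'
  have := h i.succ (cn x z) s s'
  simp only [sg, cn_update]
  exact this

/-- The variance of one step. -/
lemma var_step (hν : FM ν) {φ : ℝ → ℝ} (hφ0 : ∀ t, 0 ≤ φ t) (hφ1 : Integrable φ ν)
    (hφ2 : Integrable (fun t => φ t ^ 2) ν) {xm β c2 : ℝ} {N : ℕ}
    {g : Fin (N + 1) → (Fin (N + 1) → ℝ) → ℝ} {F : (Fin (N + 1) → ℝ) → ℝ}
    (hF : LG (N + 1) F) (hg : GD ν xm β c2 (N + 1) g) (hO : Osc ν φ (N + 1) g F) (b : ℝ) :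
    Integrable (fun x => ((∫ z, F (cn x z) ∂(PN ν N)) - b) ^ 2) ν ∧
    ∫ x, ((∫ z, F (cn x z) ∂(PN ν N)) - b) ^ 2 ∂ν ≤
      (∫ x, F x ∂(PN ν (N + 1)) - b) ^ 2 + ((∫ t, φ t ∂ν) ^ 2 * ∫ t, φ t ^ 2 ∂ν) * am ν g ^ 2 := by
  obtain ⟨Fb, hFb⟩ : ∃ Fb : ℝ → ℝ, Fb = fun x => ∫ z, F (cn x z) ∂(PN ν N) := ⟨_, rfl⟩
  obtain ⟨μ, hμ⟩ : ∃ μ, μ = ∫ x, F x ∂(PN ν (N + 1)) := ⟨_, rfl⟩
  obtain ⟨m1, hm1⟩ : ∃ m1, m1 = ∫ t, φ t ∂ν := ⟨_, rfl⟩
  obtain ⟨a, ha⟩ : ∃ a, a = am ν g := ⟨_, rfl⟩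
  have hFbint : Integrable Fb ν := by rw [hFb]; exact int_cn' (hF.integrable hν)
  have hμ' : μ = ∫ x, Fb x ∂ν := by rw [hμ, hFb, int_cn (hF.integrable hν)]
  have hm10 : 0 ≤ m1 := by rw [hm1]; exact integral_nonneg hφ0
  have ha0 : 0 ≤ a := by rw [ha]; exact am_nonneg hg
  have h1 : ∀ x x', |Fb x - Fb x'| ≤ φ x * φ x' * a := by
    intro x x'
    have e1 : Fb x - Fb x' = ∫ z, (F (cn x z) - F (cn x' z)) ∂(PN ν N) := by
      rw [hFb, integral_sub ((hF.sec x).integrable hν) ((hF.sec x').integrable hν)]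
    obtain ⟨i1, i2⟩ := am_swap hg
    rw [e1, ha, i2]
    calc |∫ z, (F (cn x z) - F (cn x' z)) ∂(PN ν N)| ≤ ∫ z, |F (cn x z) - F (cn x' z)| ∂(PN ν N) :=
          abs_integral_le_integral_abs
      _ ≤ ∫ z, φ x * φ x' * ∫ t, g 0 (cn t z) ∂ν ∂(PN ν N) := by
          refine integral_mono (((hF.sec x).integrable hν).sub ((hF.sec x').integrable hν)).abs
            (i1.const_mul _) fun z => ?_
          have h2 := hO 0 (cn 0 z) x x'
          simp only [update_cn_zero] at h2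
          exact h2
      _ = φ x * φ x' * ∫ z, ∫ t, g 0 (cn t z) ∂ν ∂(PN ν N) := integral_const_mul _ _
  have h2 : ∀ x, |Fb x - μ| ≤ φ x * (m1 * a) := by
    intro x
    have e1 : Fb x - μ = ∫ x', (Fb x - Fb x') ∂ν := by
      rw [integral_sub (integrable_const _) hFbint, ← hμ']
      simp
    rw [e1]
    calc |∫ x', (Fb x - Fb x') ∂ν| ≤ ∫ x', |Fb x - Fb x'| ∂ν := abs_integral_le_integral_abs
      _ ≤ ∫ x', φ x * a * φ x' ∂ν := by
          refine integral_mono ((integrable_const _).sub hFbint).abs (hφ1.const_mul _) fun x' => ?_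
          have := h1 x x'
          show |Fb x - Fb x'| ≤ φ x * a * φ x'
          linarith
      _ = φ x * (m1 * a) := by rw [integral_const_mul, ← hm1]; ring
  have h3 : ∀ x, (Fb x - μ) ^ 2 ≤ (m1 * a) ^ 2 * φ x ^ 2 := by
    intro x
    have h4 : |Fb x - μ| ^ 2 ≤ (φ x * (m1 * a)) ^ 2 := pow_le_pow_left₀ (abs_nonneg _) (h2 x) 2
    rw [sq_abs] at h4
    calc (Fb x - μ) ^ 2 ≤ (φ x * (m1 * a)) ^ 2 := h4
      _ = (m1 * a) ^ 2 * φ x ^ 2 := by ring
  have hsq : Integrable (fun x => (Fb x - μ) ^ 2) ν := by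
    refine (hφ2.const_mul ((m1 * a) ^ 2)).mono' ?_ (Filter.Eventually.of_forall fun x => ?_)
    · have hm : Measurable Fb := by rw [hFb]; exact measurable_int_cn hF.1
      exact ((hm.sub_const μ).pow_const 2).aestronglyMeasurable
    · rw [Real.norm_eq_abs, abs_of_nonneg (sq_nonneg _)]
      exact h3 x
  have e2 : ∀ x, (Fb x - b) ^ 2 = (Fb x - μ) ^ 2 + (2 * (μ - b) * (Fb x - μ) + (μ - b) ^ 2) := by
    intro x
    ring
  have hlin : Integrable (fun x => 2 * (μ - b) * (Fb x - μ) + (μ - b) ^ 2) ν :=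
    ((hFbint.sub (integrable_const μ)).const_mul _).add (integrable_const _)
  have hFe : (fun x => ((∫ z, F (cn x z) ∂(PN ν N)) - b) ^ 2) = fun x => (Fb x - b) ^ 2 := by
    rw [hFb]
  rw [hFe]
  simp_rw [e2]
  refine ⟨hsq.add hlin, ?_⟩
  have hlin0 : ∫ x, (2 * (μ - b) * (Fb x - μ) + (μ - b) ^ 2) ∂ν = (μ - b) ^ 2 := by
    have hl1 : Integrable (fun x => 2 * (μ - b) * (Fb x - μ)) ν :=
      (hFbint.sub (integrable_const μ)).const_mul _
    rw [integral_add hl1 (integrable_const _), integral_const_mul,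
      integral_sub hFbint (integrable_const _), ← hμ']
    simp
  rw [integral_add hsq hlin, hlin0]
  have h5 : ∫ x, (Fb x - μ) ^ 2 ∂ν ≤ (m1 * a) ^ 2 * ∫ t, φ t ^ 2 ∂ν := by
    rw [← integral_const_mul]
    exact integral_mono hsq (hφ2.const_mul _) h3
  rw [← hμ, ← hm1, ← ha]
  have e3 : m1 ^ 2 * (∫ t, φ t ^ 2 ∂ν) * a ^ 2 = (m1 * a) ^ 2 * ∫ t, φ t ^ 2 ∂ν := by ring
  rw [e3]
  linarith

theorem fluct (hν : FM ν) {φ : ℝ → ℝ} (hφ0 : ∀ t, 0 ≤ φ t) (hφ1 : Integrable φ ν)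
    (hφ2 : Integrable (fun t => φ t ^ 2) ν) {xm β c2 : ℝ} (N : ℕ) :
    ∀ (F : (Fin N → ℝ) → ℝ) (g : Fin N → (Fin N → ℝ) → ℝ) (A b T : ℝ), LG N F → GD ν xm β c2 N g →
      0 ≤ T → A ≤ M → Osc ν φ N g F →
      ∫ x, min ((F x - b) ^ 2) T ∂(PN ν N) ≤ (∫ x, F x ∂(PN ν N) - b) ^ 2 +
        ((∫ t, φ t ∂ν) ^ 2 * ∫ t, φ t ^ 2 ∂ν) * IS ν M N g A + T * IT ν M N g A := by
  induction N with
  | zero =>
    intro F g A b T hF hg hT hA hO
    have hun : ∀ x : Fin 0 → ℝ, x = default := fun x => Subsingleton.elim _ _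
    have e1 : ∫ x, min ((F x - b) ^ 2) T ∂(PN ν 0) = min ((F default - b) ^ 2) T := by
      have : (fun x : Fin 0 → ℝ => min ((F x - b) ^ 2) T) = fun _ => min ((F default - b) ^ 2) T := by
        funext x
        rw [hun x]
      rw [this]
      simp
    have e2 : ∫ x, F x ∂(PN ν 0) = F default := by
      have : F = fun _ => F default := by
        funext x
        rw [hun x]
      rw [this]
      simp
    rw [e1, e2]
    simp only [IS, IT, mul_zero, add_zero]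
    exact min_le_left _ _
  | succ N ih =>
    intro F g A b T hF hg hT hA hO
    obtain ⟨Cv, hCv⟩ : ∃ Cv, Cv = (∫ t, φ t ∂ν) ^ 2 * ∫ t, φ t ^ 2 ∂ν := ⟨_, rfl⟩
    have hCv0 : 0 ≤ Cv := by
      rw [hCv]
      exact mul_nonneg (sq_nonneg _) (integral_nonneg fun t => sq_nonneg _)
    have hmeas : Measurable fun x => min ((F x - b) ^ 2) T :=
      ((hF.1.sub_const b).pow_const 2).min measurable_const
    have hb : ∀ x, |min ((F x - b) ^ 2) T| ≤ T := fun x => by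
      rw [abs_of_nonneg (le_min (sq_nonneg _) hT)]
      exact min_le_right _ _
    have hLG : LG (N + 1) fun x => min ((F x - b) ^ 2) T := LG.bdd hmeas hb
    by_cases hcase : A + am ν g ^ 2 ≤ M
    · have h1 : ∀ x, ∫ z, min ((F (cn x z) - b) ^ 2) T ∂(PN ν N) ≤
          (∫ z, F (cn x z) ∂(PN ν N) - b) ^ 2 + Cv * IS ν M N (sg g x) (A + am ν g ^ 2) +
            T * IT ν M N (sg g x) (A + am ν g ^ 2) := by
        intro x
        rw [hCv]
        exact ih (fun z => F (cn x z)) (sg g x) (A + am ν g ^ 2) b T (hF.sec x) (hg.sec x) hT hcase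
          (hO.sec x)
      obtain ⟨i1, i2⟩ := var_step hν hφ0 hφ1 hφ2 hF hg hO b
      have j1 : Integrable (fun x => Cv * IS ν M N (sg g x) (A + am ν g ^ 2)) ν :=
        (IS_sec_int hg.meas hcase).const_mul _
      have j2 : Integrable (fun x => T * IT ν M N (sg g x) (A + am ν g ^ 2)) ν :=
        (IT_sec_int hg.meas _).const_mul _
      have j3 : Integrable (fun x => (∫ z, F (cn x z) ∂(PN ν N) - b) ^ 2 +
          Cv * IS ν M N (sg g x) (A + am ν g ^ 2)) ν := i1.add j1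
      have h2 : ∫ x, min ((F x - b) ^ 2) T ∂(PN ν (N + 1)) ≤
          ∫ x, ((∫ z, F (cn x z) ∂(PN ν N) - b) ^ 2 + Cv * IS ν M N (sg g x) (A + am ν g ^ 2) +
            T * IT ν M N (sg g x) (A + am ν g ^ 2)) ∂ν := by
        rw [int_cn (hLG.integrable hν)]
        exact integral_mono (int_cn' (hLG.integrable hν)) (j3.add j2) h1
      rw [integral_add j3 j2, integral_add i1 j1, integral_const_mul, integral_const_mul] at h2
      have e1 : IS ν M (N + 1) g A = am ν g ^ 2 + ∫ x, IS ν M N (sg g x) (A + am ν g ^ 2) ∂ν := by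
        simp only [IS]
        rw [if_pos hcase]
      have e2 : IT ν M (N + 1) g A = ∫ x, IT ν M N (sg g x) (A + am ν g ^ 2) ∂ν := by
        simp only [IT]
        rw [if_pos hcase]
      rw [← hCv] at i2 ⊢
      rw [e1, e2]
      linarith
    · have e2 : IT ν M (N + 1) g A = 1 := by
        simp only [IT]
        rw [if_neg hcase]
      have e1 : IS ν M (N + 1) g A = 0 := by
        simp only [IS]
        rw [if_neg hcase]
      rw [e1, e2]
      have h2 : ∫ x, min ((F x - b) ^ 2) T ∂(PN ν (N + 1)) ≤ T := by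
        calc ∫ x, min ((F x - b) ^ 2) T ∂(PN ν (N + 1)) ≤ ∫ _x, T ∂(PN ν (N + 1)) :=
              integral_mono (hLG.integrable hν) (integrable_const _) fun x => min_le_right _ _
          _ = T := by simp
      nlinarith [sq_nonneg (∫ x, F x ∂(PN ν (N + 1)) - b)]

end

end Pool.Agent.W_7d29a1_h42
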