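import Pool.Agent.W_7d29a1_h42.LuckInd
import Pool.Agent.W_7d29a1_h42.LuckFluct

/-!
LEMMA LA (luck amplification with bounded density): if a function of independent variables with the
properties of a free energy has fluctuations of the order `U` then there is a density which is bounded
by a constant which depends on `K` only, and which raises the mean by `K U`.
-/

namespace Pool.Agent.W_7d29a1_h42

open MeasureTheory Set

noncomputable section

section dens

variable {Ω : Type*} [MeasurableSpace Ω] {P : Measure Ω} [IsProbabilityMeasure P]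

/-- The optimal density with the bound `B`. -/
theorem dens_opt {F : Ω → ℝ} (hF : Measurable F) (hi : Integrable F P) {B : ℝ} (hB : 1 < B) :
    ∃ (s : ℝ) (ψ : ℝ → ℝ), Measurable ψ ∧ (∀ t, 0 ≤ ψ t) ∧ (∀ t, ψ t ≤ B) ∧ ∫ x, ψ (F x) ∂P = 1 ∧
      ∫ x, ψ (F x) * F x ∂P = s + B * ∫ x, max (F x - s) 0 ∂P := by
  have hB0 : 0 < B := by linarith
  have hms : ∀ s : ℝ, MeasurableSet {x | s < F x} := fun s => measurableSet_lt measurable_const hF
  have hanti : ∀ s t : ℝ, s ≤ t → P.real {x | t < F x} ≤ P.real {x | s < F x} := fun s t hst =>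
    measureReal_mono fun x hx => lt_of_le_of_lt hst hx
  -- the set of levels
  obtain ⟨S, hS⟩ : ∃ S : Set ℝ, S = {s | 1 / B < P.real {x | s < F x}} := ⟨_, rfl⟩
  have h1B : 1 / B < 1 := by rw [div_lt_one hB0]; exact hB
  have hne : S.Nonempty := by
    -- the measure of `{-n < F}` tends to one
    have hmono : Monotone fun n : ℕ => {x | -(n : ℝ) < F x} := by
      intro n k hnk x hx
      have : (n : ℝ) ≤ k := by exact_mod_cast hnk
      simp only [mem_setOf_eq] at hx ⊢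
      linarith
    have hU : (⋃ n : ℕ, {x | -(n : ℝ) < F x}) = univ := by
      ext x
      simp only [mem_iUnion, mem_setOf_eq, mem_univ, iff_true]
      obtain ⟨n, hn⟩ := exists_nat_gt (-F x)
      exact ⟨n, by linarith⟩
    have ht := tendsto_measure_iUnion_atTop (μ := P) hmono
    rw [hU, measure_univ] at ht
    have ht' : Filter.Tendsto (fun n : ℕ => P.real {x | -(n : ℝ) < F x}) Filter.atTop (nhds 1) := by
      have := (ENNReal.tendsto_toReal (by simp : (1 : ENNReal) ≠ ⊤)).comp ht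
      simpa [Measure.real, Function.comp_def] using this
    obtain ⟨n, hn⟩ := (ht'.eventually (lt_mem_nhds h1B)).exists
    exact ⟨-(n : ℝ), by rw [hS]; exact hn⟩
  have hbdd : BddAbove S := by
    have hanti' : Antitone fun n : ℕ => {x | (n : ℝ) < F x} := by
      intro n k hnk x hx
      have : (n : ℝ) ≤ k := by exact_mod_cast hnk
      simp only [mem_setOf_eq] at hx ⊢
      linarith
    have hI : (⋂ n : ℕ, {x | (n : ℝ) < F x}) = ∅ := by
      ext x
      simp only [mem_iInter, mem_setOf_eq, mem_empty_iff_false, iff_false, not_forall, not_lt]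
      obtain ⟨n, hn⟩ := exists_nat_gt (F x)
      exact ⟨n, by linarith⟩
    have ht := tendsto_measure_iInter_atTop (μ := P) (fun n : ℕ => (hms (n : ℝ)).nullMeasurableSet)
      hanti' ⟨0, measure_ne_top _ _⟩
    rw [hI, measure_empty] at ht
    have ht' : Filter.Tendsto (fun n : ℕ => P.real {x | (n : ℝ) < F x}) Filter.atTop (nhds 0) := by
      have := (ENNReal.tendsto_toReal (by simp : (0 : ENNReal) ≠ ⊤)).comp ht
      simpa [Measure.real, Function.comp_def] using this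
    obtain ⟨n, hn⟩ := (ht'.eventually (gt_mem_nhds (show (0 : ℝ) < 1 / B by positivity))).exists
    refine ⟨n, fun s hs => ?_⟩
    rw [hS] at hs
    by_contra hlt
    push Not at hlt
    have h1 := hanti n s hlt.le
    have h2 : 1 / B < P.real {x | s < F x} := hs
    linarith
  obtain ⟨s, hs⟩ : ∃ s, s = sSup S := ⟨_, rfl⟩
  have hlo : P.real {x | s < F x} ≤ 1 / B := by
    have hmono : Monotone fun n : ℕ => {x | s + 1 / ((n : ℝ) + 1) < F x} := by
      intro n k hnk x hx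
      have h1 : (n : ℝ) ≤ k := by exact_mod_cast hnk
      have h2 : 1 / ((k : ℝ) + 1) ≤ 1 / ((n : ℝ) + 1) := by
        apply one_div_le_one_div_of_le <;> [positivity; linarith]
      simp only [mem_setOf_eq] at hx ⊢
      linarith
    have hU : (⋃ n : ℕ, {x | s + 1 / ((n : ℝ) + 1) < F x}) = {x | s < F x} := by
      ext x
      simp only [mem_iUnion, mem_setOf_eq]
      constructor
      · rintro ⟨n, hn⟩
        have : 0 < 1 / ((n : ℝ) + 1) := by positivity
        linarith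
      · intro h
        obtain ⟨n, hn⟩ := exists_nat_one_div_lt (show 0 < F x - s by linarith)
        exact ⟨n, by linarith⟩
    have ht := tendsto_measure_iUnion_atTop (μ := P) hmono
    rw [hU] at ht
    have ht' : Filter.Tendsto (fun n : ℕ => P.real {x | s + 1 / ((n : ℝ) + 1) < F x}) Filter.atTop
        (nhds (P.real {x | s < F x})) := by
      have := (ENNReal.tendsto_toReal (measure_ne_top P {x | s < F x})).comp ht
      simpa [Measure.real, Function.comp_def] using this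
    refine le_of_tendsto' ht' fun n => ?_
    by_contra hlt
    push Not at hlt
    have h1 : s + 1 / ((n : ℝ) + 1) ∈ S := by rw [hS]; exact hlt
    have h2 := le_csSup hbdd h1
    rw [← hs] at h2
    have : 0 < 1 / ((n : ℝ) + 1) := by positivity
    linarith
  have hhi : 1 / B ≤ P.real {x | s ≤ F x} := by
    have hanti' : Antitone fun n : ℕ => {x | s - 1 / ((n : ℝ) + 1) < F x} := by
      intro n k hnk x hx
      have h1 : (n : ℝ) ≤ k := by exact_mod_cast hnk
      have h2 : 1 / ((k : ℝ) + 1) ≤ 1 / ((n : ℝ) + 1) := by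
        apply one_div_le_one_div_of_le <;> [positivity; linarith]
      simp only [mem_setOf_eq] at hx ⊢
      linarith
    have hI : (⋂ n : ℕ, {x | s - 1 / ((n : ℝ) + 1) < F x}) = {x | s ≤ F x} := by
      ext x
      simp only [mem_iInter, mem_setOf_eq]
      constructor
      · intro h
        by_contra hlt
        push Not at hlt
        obtain ⟨n, hn⟩ := exists_nat_one_div_lt (show 0 < s - F x by linarith)
        have := h n
        linarith
      · intro h n
        have : 0 < 1 / ((n : ℝ) + 1) := by positivity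
        linarith
    have ht := tendsto_measure_iInter_atTop (μ := P)
      (fun n : ℕ => (hms (s - 1 / ((n : ℝ) + 1))).nullMeasurableSet) hanti' ⟨0, measure_ne_top _ _⟩
    rw [hI] at ht
    have ht' : Filter.Tendsto (fun n : ℕ => P.real {x | s - 1 / ((n : ℝ) + 1) < F x}) Filter.atTop
        (nhds (P.real {x | s ≤ F x})) := by
      have := (ENNReal.tendsto_toReal (measure_ne_top P {x | s ≤ F x})).comp ht
      simpa [Measure.real, Function.comp_def] using this
    refine ge_of_tendsto' ht' fun n => ?_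
    have h0 : s - 1 / ((n : ℝ) + 1) < sSup S := by
      rw [← hs]
      have : 0 < 1 / ((n : ℝ) + 1) := by positivity
      linarith
    obtain ⟨t, ht1, ht2⟩ := exists_lt_of_lt_csSup hne h0
    rw [hS] at ht1
    have h1 : 1 / B < P.real {x | t < F x} := ht1
    exact h1.le.trans (hanti _ _ ht2.le)
  have hmeq : MeasurableSet {x | F x = s} := measurableSet_eq_fun hF measurable_const
  have hsum : P.real {x | s ≤ F x} = P.real {x | s < F x} + P.real {x | F x = s} := by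
    have : {x | s ≤ F x} = {x | s < F x} ∪ {x | F x = s} := by
      ext x
      simp only [mem_setOf_eq, mem_union]
      constructor
      · intro h
        rcases h.lt_or_eq with h | h
        · exact Or.inl h
        · exact Or.inr h.symm
      · rintro (h | h)
        · exact h.le
        · exact h.ge
    rw [this, measureReal_union ?_ hmeq]
    rw [Set.disjoint_left]
    intro x hx hx'
    simp only [mem_setOf_eq] at hx hx'
    linarith
  obtain ⟨p1, hp1⟩ : ∃ p1, p1 = P.real {x | s < F x} := ⟨_, rfl⟩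
  obtain ⟨p2, hp2⟩ : ∃ p2, p2 = P.real {x | F x = s} := ⟨_, rfl⟩
  have hp20 : 0 ≤ p2 := by rw [hp2]; exact measureReal_nonneg
  have hl1 : B * p1 ≤ 1 := by
    rw [hp1]
    rw [le_div_iff₀ hB0] at hlo
    linarith
  have hl2 : 1 ≤ B * p1 + B * p2 := by
    rw [hsum, ← hp1, ← hp2, div_le_iff₀ hB0] at hhi
    linarith
  obtain ⟨θ, hθ0, hθ1, hθ⟩ : ∃ θ, 0 ≤ θ ∧ θ ≤ B ∧ B * p1 + θ * p2 = 1 := by
    rcases hp20.lt_or_eq with h | h
    · refine ⟨(1 - B * p1) / p2, div_nonneg (by linarith) hp20, ?_, ?_⟩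
      · rw [div_le_iff₀ h]
        linarith
      · field_simp
        ring
    · refine ⟨0, le_rfl, hB0.le, ?_⟩
      rw [← h] at hl2
      linarith
  obtain ⟨ψ, hψ⟩ : ∃ ψ : ℝ → ℝ, ψ = fun t => B * (Ioi s).indicator (fun _ => (1 : ℝ)) t +
      θ * ({s} : Set ℝ).indicator (fun _ => (1 : ℝ)) t := ⟨_, rfl⟩
  have hψ1 : ∀ t, s < t → ψ t = B := fun t h => by
    rw [hψ]
    simp [h, ne_of_gt h]
  have hψ2 : ψ s = θ := by rw [hψ]; simp
  have hψ3 : ∀ t, t < s → ψ t = 0 := fun t h => by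
    rw [hψ]
    simp [not_lt.2 h.le, ne_of_lt h]
  have hψm : Measurable ψ := by
    rw [hψ]
    exact ((measurable_const.indicator measurableSet_Ioi).const_mul B).add
      ((measurable_const.indicator (measurableSet_singleton s)).const_mul θ)
  have hψ0 : ∀ t, 0 ≤ ψ t := fun t => by
    rcases lt_trichotomy t s with h | h | h
    · rw [hψ3 t h]
    · rw [h, hψ2]
      exact hθ0
    · rw [hψ1 t h]
      exact hB0.le
  have hψB : ∀ t, ψ t ≤ B := fun t => by
    rcases lt_trichotomy t s with h | h | h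
    · rw [hψ3 t h]
      exact hB0.le
    · rw [h, hψ2]
      exact hθ1
    · rw [hψ1 t h]
  have hψint : Integrable (fun x => ψ (F x)) P := by
    refine (integrable_const B).mono' (hψm.comp hF).aestronglyMeasurable
      (Filter.Eventually.of_forall fun x => ?_)
    rw [Real.norm_eq_abs, abs_of_nonneg (hψ0 _)]
    exact hψB _
  have hone : ∫ x, ψ (F x) ∂P = 1 := by
    have e1 : ∀ x, ψ (F x) = B * {x | s < F x}.indicator (fun _ => (1 : ℝ)) x +
        θ * {x | F x = s}.indicator (fun _ => (1 : ℝ)) x := by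
      intro x
      rcases lt_trichotomy (F x) s with h | h | h
      · rw [hψ3 _ h]
        simp [not_lt.2 h.le, ne_of_lt h]
      · rw [h, hψ2]
        simp [h]
      · rw [hψ1 _ h]
        simp [h, ne_of_gt h]
    simp_rw [e1]
    have i1 : Integrable ({x | s < F x}.indicator fun _ => (1 : ℝ)) P :=
      (integrable_const (1 : ℝ)).indicator (hms s)
    have i2 : Integrable ({x | F x = s}.indicator fun _ => (1 : ℝ)) P :=
      (integrable_const (1 : ℝ)).indicator hmeq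
    rw [integral_add (i1.const_mul B) (i2.const_mul θ), integral_const_mul, integral_const_mul,
      integral_indicator (hms s), integral_indicator hmeq]
    simp only [integral_const, measureReal_restrict_apply_univ, smul_eq_mul, mul_one]
    rw [← hp1, ← hp2, hθ]
  refine ⟨s, ψ, hψm, hψ0, hψB, hone, ?_⟩
  have e2 : ∀ x, ψ (F x) * F x = s * ψ (F x) + B * max (F x - s) 0 := by
    intro x
    rcases lt_trichotomy (F x) s with h | h | h
    · rw [hψ3 _ h, max_eq_right (by linarith)]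
      ring
    · rw [h, hψ2]
      simp
      ring
    · rw [hψ1 _ h, max_eq_left (by linarith)]
      ring
  simp_rw [e2]
  have i3 : Integrable (fun x => max (F x - s) 0) P :=
    (hi.sub (integrable_const s)).sup (integrable_const (0 : ℝ))
  rw [integral_add (hψint.const_mul s) (i3.const_mul B), integral_const_mul, integral_const_mul, hone,
    mul_one]

end dens

variable {ν : Measure ℝ} [IsProbabilityMeasure ν]

/-- LEMMA LA, dual form. The constants `B`, `U0` depend on `ν, xm, xp, β, c2, φ, δ, K` only. -/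
theorem luck_dual (hν : FM ν) {xm xp : ℝ} (hx : xm < xp) (hq : 0 < ν.real (Ici xp)) {β c2 : ℝ}
    (hβ : 0 ≤ β) (hc2 : 0 < c2) {φ : ℝ → ℝ} (hφ0 : ∀ t, 0 ≤ φ t) (hφ1 : Integrable φ ν)
    (hφ2 : Integrable (fun t => φ t ^ 2) ν) {δ : ℝ} (hδ : 0 < δ) (hδ1 : δ ≤ 1) {K : ℝ} (hK : 0 ≤ K) :
    ∃ B U0 : ℝ, 1 < B ∧ 0 < U0 ∧ ∀ (N : ℕ) (F : (Fin N → ℝ) → ℝ) (g : Fin N → (Fin N → ℝ) → ℝ),
      LG N F → GD ν xm β c2 N g → Osc ν φ N g F →
      (∀ x y, F x + ∑ i, g i x * (y i - x i) ≤ F y) → ∀ U : ℝ, U0 ≤ U →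
      δ * U ^ 2 ≤ ∫ x, min ((F x - ∫ y, F y ∂(PN ν N)) ^ 2) (U ^ 2) ∂(PN ν N) → ∀ s : ℝ,
      ∫ x, F x ∂(PN ν N) + K * U ≤ s + B * ∫ x, max (F x - s) 0 ∂(PN ν N) := by
  obtain ⟨Cv, hCv⟩ : ∃ Cv, Cv = (∫ t, φ t ∂ν) ^ 2 * ∫ t, φ t ^ 2 ∂ν := ⟨_, rfl⟩
  have hCv0 : 0 ≤ Cv := by
    rw [hCv]
    exact mul_nonneg (sq_nonneg _) (integral_nonneg fun t => sq_nonneg _)
  obtain ⟨cp, hcp⟩ : ∃ cp, cp = (xp - xm) * c2 := ⟨_, rfl⟩
  have hcp0 : 0 < cp := by rw [hcp]; exact mul_pos (by linarith) hc2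
  obtain ⟨K', hK'⟩ : ∃ K', K' = 2 * (Cv + 2) * K / (cp * δ) := ⟨_, rfl⟩
  have hK'0 : 0 ≤ K' := by rw [hK']; positivity
  obtain ⟨ρ, hρ⟩ : ∃ ρ, ρ = ν.real (Iic xm) / ν.real (Ici xp) := ⟨_, rfl⟩
  have hρ0 : 0 ≤ ρ := by
    rw [hρ]
    have : 0 ≤ ν.real (Iic xm) := measureReal_nonneg
    positivity
  have hC0 : 0 ≤ Cq ν xm xp := Cq_nonneg xm xp
  obtain ⟨N0, hN0⟩ : ∃ N0, N0 = 2 * (Cv + 2) * Real.exp (Cq ν xm xp * K' ^ 2) / δ := ⟨_, rfl⟩
  have hexp1 : 1 ≤ Real.exp (Cq ν xm xp * K' ^ 2) := Real.one_le_exp (by positivity)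
  have hN01 : 1 ≤ N0 := by
    rw [hN0, le_div_iff₀ hδ]
    nlinarith
  refine ⟨2 * N0, 1 + 2 * β + 2 * (K' * β) + ρ * (K' * β), by linarith, by positivity, ?_⟩
  intro N F g hF hg hO hconv U hU hfl s
  have hKβ : 0 ≤ K' * β := by positivity
  have hρKβ : 0 ≤ ρ * (K' * β) := by positivity
  have hU0 : 0 < U := by linarith
  have hP : Par ν xm xp β c2 (K' / U) N0 := by
    refine ⟨hx, hq, hβ, hc2.le, by positivity, ?_, ?_, by linarith⟩
    · rw [div_mul_eq_mul_div, div_le_iff₀ hU0]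
      linarith
    · rw [← hρ, div_mul_eq_mul_div, mul_div_assoc', div_le_iff₀ hU0]
      linarith
  have h1 := key (M := U ^ 2) hν hP N F F g 0 1 s hF hF hg (sq_nonneg U) one_pos (by linarith) hconv
  have h2 := fluct (M := U ^ 2) hν hφ0 hφ1 hφ2 N F g 0 (∫ y, F y ∂(PN ν N)) (U ^ 2) hF hg (sq_nonneg U)
    (sq_nonneg U) hO
  have h3 := IS_ge (M := U ^ 2) N g 0 hg (sq_nonneg U)
  obtain ⟨I, hI⟩ : ∃ I, I = IS ν (U ^ 2) N g 0 := ⟨_, rfl⟩
  obtain ⟨J, hJ⟩ : ∃ J, J = IT ν (U ^ 2) N g 0 := ⟨_, rfl⟩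
  have hJ0 : 0 ≤ J := by rw [hJ]; exact IT_nonneg N _ _
  rw [← hCv, ← hI, ← hJ, sub_self] at h2
  rw [← hI, ← hJ] at h3
  rw [← hI] at h1
  have hβU : β ^ 2 ≤ U ^ 2 / 2 := by
    have : 2 * β ≤ U := by linarith
    nlinarith
  have h4 : U ^ 2 * J ≤ 2 * I := by nlinarith
  have h5 : δ * U ^ 2 ≤ (Cv + 2) * I := by
    have h6 := hfl.trans h2
    nlinarith
  have hCv2 : 0 < Cv + 2 := by linarith
  have h6 : δ * U ^ 2 / (Cv + 2) ≤ I := by
    rw [div_le_iff₀ hCv2]
    linarith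
  have h7 : (U ^ 2 - 0) * (1 / N0) * Real.exp (Cq ν xm xp * (K' / U) ^ 2 * (U ^ 2 - 0)) =
      δ * U ^ 2 / (2 * (Cv + 2)) := by
    have e1 : Cq ν xm xp * (K' / U) ^ 2 * (U ^ 2 - 0) = Cq ν xm xp * K' ^ 2 := by
      field_simp
      ring
    rw [e1, hN0]
    have : Real.exp (Cq ν xm xp * K' ^ 2) ≠ 0 := (Real.exp_pos _).ne'
    field_simp
    ring
  rw [h7, ← hcp] at h1
  have h8 : K * U ≤ cp * (K' / U) * (I - δ * U ^ 2 / (2 * (Cv + 2))) := by
    have e1 : δ * U ^ 2 / (2 * (Cv + 2)) ≤ I - δ * U ^ 2 / (2 * (Cv + 2)) := by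
      have : δ * U ^ 2 / (2 * (Cv + 2)) + δ * U ^ 2 / (2 * (Cv + 2)) = δ * U ^ 2 / (Cv + 2) := by
        field_simp
        ring
      linarith
    have e2 : cp * (K' / U) * (δ * U ^ 2 / (2 * (Cv + 2))) = K * U := by
      rw [hK']
      field_simp
    rw [← e2]
    exact mul_le_mul_of_nonneg_left e1 (by positivity)
  rw [div_one] at h1
  linarith

/-- LEMMA LA, density form. -/
theorem luck_amp (hν : FM ν) {xm xp : ℝ} (hx : xm < xp) (hq : 0 < ν.real (Ici xp)) {β c2 : ℝ}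
    (hβ : 0 ≤ β) (hc2 : 0 < c2) {φ : ℝ → ℝ} (hφ0 : ∀ t, 0 ≤ φ t) (hφ1 : Integrable φ ν)
    (hφ2 : Integrable (fun t => φ t ^ 2) ν) {δ : ℝ} (hδ : 0 < δ) (hδ1 : δ ≤ 1) {K : ℝ} (hK : 0 ≤ K) :
    ∃ B U0 : ℝ, 1 < B ∧ 0 < U0 ∧ ∀ (N : ℕ) (F : (Fin N → ℝ) → ℝ) (g : Fin N → (Fin N → ℝ) → ℝ),
      LG N F → GD ν xm β c2 N g → Osc ν φ N g F →
      (∀ x y, F x + ∑ i, g i x * (y i - x i) ≤ F y) → ∀ U : ℝ, U0 ≤ U →
      δ * U ^ 2 ≤ ∫ x, min ((F x - ∫ y, F y ∂(PN ν N)) ^ 2) (U ^ 2) ∂(PN ν N) →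
      ∃ ψ : ℝ → ℝ, Measurable ψ ∧ (∀ t, 0 ≤ ψ t) ∧ (∀ t, ψ t ≤ B) ∧ ∫ x, ψ (F x) ∂(PN ν N) = 1 ∧
        ∫ x, F x ∂(PN ν N) + K * U ≤ ∫ x, ψ (F x) * F x ∂(PN ν N) := by
  obtain ⟨B, U0, hB, hU0, h⟩ := luck_dual (ν := ν) hν hx hq hβ hc2 hφ0 hφ1 hφ2 hδ hδ1 hK
  refine ⟨B, U0, hB, hU0, fun N F g hF hg hO hconv U hU hfl => ?_⟩
  obtain ⟨s, ψ, h1, h2, h3, h4, h5⟩ := dens_opt hF.1 (hF.integrable hν) hB
  refine ⟨ψ, h1, h2, h3, h4, ?_⟩
  rw [h5]
  exact h N F g hF hg hO hconv U hU hfl s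

end

end Pool.Agent.W_7d29a1_h42
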