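import Pool.Agent.W_7d29a1_h42.LuckInst
import Pool.Agent.W_7d29a1_h60.LuckDens

/-!
Lemma LA for the partition functions of the directed polymer, and the growth step.
-/

namespace Pool.Agent.W_7d29a1_h42

open MeasureTheory Set Pool.Agent.W_7d29a1_F

noncomputable section

/-- `Z` is a finite sum of positive multiples of products of distinct site weights `exp (η p)`, `p ∈ A`. -/
def PFs (A : Set Pt) (Z : Env → ℝ) : Prop :=
  ∃ (ι : Type) (_ : Fintype ι) (w : ι → ℝ) (T : ι → Finset Pt), (∀ k, 0 < w k) ∧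
    (∀ k, ∀ p ∈ T k, p ∈ A) ∧ ∀ η, Z η = ∑ k, w k * Real.exp (∑ p ∈ T k, η p)

namespace PFs

variable {A A' : Set Pt} {Z Z' : Env → ℝ}

lemma mono (h : PFs A Z) (hA : A ⊆ A') : PFs A' Z := by
  obtain ⟨ι, hι, w, T, h1, h2, h3⟩ := h
  exact ⟨ι, hι, w, T, h1, fun k p hp => hA (h2 k p hp), h3⟩

lemma zero : PFs A fun _ => 0 :=
  ⟨Empty, inferInstance, fun _ => 1, fun _ => ∅, fun k => k.elim, fun k => k.elim, fun η => by simp⟩

lemma one : PFs A fun _ => 1 :=
  ⟨Unit, inferInstance, fun _ => 1, fun _ => ∅, fun _ => one_pos, fun k p hp => by simp at hp,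
    fun η => by simp⟩

lemma site {p : Pt} (hp : p ∈ A) : PFs A fun η => Real.exp (η p) :=
  ⟨Unit, inferInstance, fun _ => 1, fun _ => {p}, fun _ => one_pos,
    fun k q hq => by rw [Finset.mem_singleton.1 hq]; exact hp, fun η => by simp⟩

lemma const_mul (h : PFs A Z) {c : ℝ} (hc : 0 < c) : PFs A fun η => c * Z η := by
  obtain ⟨ι, hι, w, T, h1, h2, h3⟩ := h
  refine ⟨ι, hι, fun k => c * w k, T, fun k => mul_pos hc (h1 k), h2, fun η => ?_⟩
  beta_reduce
  rw [h3, Finset.mul_sum]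
  exact Finset.sum_congr rfl fun k _ => by ring

lemma add (h : PFs A Z) (h' : PFs A Z') : PFs A fun η => Z η + Z' η := by
  obtain ⟨ι, hι, w, T, h1, h2, h3⟩ := h
  obtain ⟨ι', hι', w', T', h1', h2', h3'⟩ := h'
  refine ⟨ι ⊕ ι', inferInstance, Sum.elim w w', Sum.elim T T', ?_, ?_, fun η => ?_⟩
  · rintro (k | k)
    · exact h1 k
    · exact h1' k
  · rintro (k | k) p hp
    · exact h2 k p hp
    · exact h2' k p hp
  · beta_reduce
    rw [h3, h3', Fintype.sum_sum_type]
    simp only [Sum.elim_inl, Sum.elim_inr]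

lemma sum {α : Type*} (I : Finset α) {f : α → Env → ℝ} (hf : ∀ i ∈ I, PFs A (f i)) :
    PFs A fun η => ∑ i ∈ I, f i η := by
  classical
  induction I using Finset.induction_on with
  | empty => simpa using zero
  | insert a s ha ih =>
    have h1 := (hf a (Finset.mem_insert_self _ _)).add
      (ih fun i hi => hf i (Finset.mem_insert_of_mem hi))
    simpa [Finset.sum_insert ha] using h1

lemma mul {B : Set Pt} (hAB : Disjoint A B) (h : PFs A Z) (h' : PFs B Z') :
    PFs (A ∪ B) fun η => Z η * Z' η := by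
  classical
  obtain ⟨ι, hι, w, T, h1, h2, h3⟩ := h
  obtain ⟨ι', hι', w', T', h1', h2', h3'⟩ := h'
  refine ⟨ι × ι', inferInstance, fun k => w k.1 * w' k.2, fun k => T k.1 ∪ T' k.2,
    fun k => mul_pos (h1 _) (h1' _), ?_, fun η => ?_⟩
  · intro k p hp
    rcases Finset.mem_union.1 hp with hp | hp
    · exact Or.inl (h2 _ _ hp)
    · exact Or.inr (h2' _ _ hp)
  · beta_reduce
    rw [h3, h3', Finset.sum_mul_sum, Fintype.sum_prod_type]
    refine Finset.sum_congr rfl fun k _ => Finset.sum_congr rfl fun k' _ => ?_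
    have hd : Disjoint (T k) (T' k') := by
      rw [Finset.disjoint_left]
      intro p hp hp'
      exact Set.disjoint_left.1 hAB (h2 _ _ hp) (h2' _ _ hp')
    rw [Finset.sum_union hd, Real.exp_add]
    ring

end PFs

/-- The partition function between two points. -/
theorem Zr_PFs (R : Set Pt) (a : Pt) (n : ℕ) (y : ℤ) :
    PFs (rows a.1 (a.1 + n)) fun η => Zr R η a n y := by
  classical
  induction n generalizing y with
  | zero =>
    by_cases h : y = 0
    · have e : (fun η : Env => Zr R η a 0 y) = fun _ => 1 := by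
        funext η
        simp [Zr, h]
      rw [e]
      exact PFs.one
    · have e : (fun η : Env => Zr R η a 0 y) = fun _ => 0 := by
        funext η
        simp [Zr, h]
      rw [e]
      exact PFs.zero
  | succ n ih =>
    by_cases h : (a.1 + (n + 1 : ℤ), a.2 + y) ∈ R
    · have e : (fun η : Env => Zr R η a (n + 1) y) = fun η =>
          Real.exp (η (a.1 + (n + 1 : ℤ), a.2 + y)) * (Zr R η a n y + Zr R η a n (y - 1)) := by
        funext η
        simp only [Zr]
        rw [Set.indicator_of_mem h]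
      rw [e]
      have h1 : PFs ({(a.1 + (n + 1 : ℤ), a.2 + y)} : Set Pt)
          fun η => Real.exp (η (a.1 + (n + 1 : ℤ), a.2 + y)) := PFs.site rfl
      have h2 := (ih y).add (ih (y - 1))
      refine (PFs.mul ?_ h1 h2).mono ?_
      · rw [Set.disjoint_left]
        rintro p hp hp'
        rw [Set.mem_singleton_iff] at hp
        rw [hp] at hp'
        have := hp'.2
        simp only at this
        linarith
      · rintro p (hp | hp)
        · rw [Set.mem_singleton_iff] at hp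
          rw [hp]
          constructor
          · show a.1 < a.1 + (n + 1 : ℤ)
            linarith [Int.natCast_nonneg n]
          · show a.1 + (n + 1 : ℤ) ≤ a.1 + ((n + 1 : ℕ) : ℤ)
            push_cast
            linarith
        · refine ⟨hp.1, hp.2.trans ?_⟩
          push_cast
          linarith
    · have e : (fun η : Env => Zr R η a (n + 1) y) = fun _ => 0 := by
        funext η
        simp only [Zr]
        rw [Set.indicator_of_notMem h, zero_mul]
      rw [e]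
      exact PFs.zero

theorem WR_PFs (μ : Measure ℝ) (s : ℝ) (R : Set Pt) (a : Pt) (n : ℕ) (y : ℤ) :
    PFs (rows a.1 (a.1 + n)) fun η => WR μ s R η a n y :=
  (Zr_PFs R a n y).const_mul (Real.exp_pos _)

theorem W_PFs (μ : Measure ℝ) (s : ℝ) (a : Pt) (n : ℕ) (y : ℤ) :
    PFs (rows a.1 (a.1 + n)) fun η => W μ s η a n y := WR_PFs μ s Set.univ a n y

theorem WS_PFs (μ : Measure ℝ) (s : ℝ) (a : Pt) (n : ℕ) (A : Finset ℤ) :
    PFs (rows a.1 (a.1 + n)) fun η => WS μ s η a n A := PFs.sum A fun y _ => W_PFs μ s a n y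

/-- The logarithm of a partition function has linear growth. -/
theorem PFs.log_Sub {A : Set Pt} {Z : Env → ℝ} (h : PFs A Z) (hne : ∃ η, Z η ≠ 0) (c : ℝ) :
    Sub fun η => c + Real.log (Z η) := by
  classical
  obtain ⟨ι, hι, w, T, hw, -, hZ⟩ := h
  obtain ⟨η0, hη0⟩ := hne
  have hne : Nonempty ι := by
    by_contra hcon
    rw [not_nonempty_iff] at hcon
    exact hη0 (by rw [hZ]; simp)
  obtain ⟨S, hS⟩ : ∃ S : Finset Pt, S = Finset.univ.biUnion T := ⟨_, rfl⟩
  have hTS : ∀ k, T k ⊆ S := fun k => by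
    rw [hS]
    exact Finset.subset_biUnion_of_mem T (Finset.mem_univ k)
  have hZm : Measurable Z := by
    have e : Z = fun η => ∑ k, w k * Real.exp (∑ p ∈ T k, η p) := funext hZ
    rw [e]
    refine Finset.measurable_sum _ fun k _ => ?_
    exact (Real.measurable_exp.comp (Finset.measurable_sum _ fun i _ => measurable_pi_apply i)).const_mul _
  refine (Sub.const c).add ⟨Real.measurable_log.comp hZm, S, 1 + |Real.log (∑ k, w k)|, by positivity,
    fun η => ?_⟩
  obtain ⟨W, hW⟩ : ∃ W, W = ∑ k, w k := ⟨_, rfl⟩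
  have hW0 : 0 < W := by rw [hW]; exact Finset.sum_pos (fun k _ => hw k) Finset.univ_nonempty
  obtain ⟨R, hR⟩ : ∃ R, R = ∑ p ∈ S, |η p| := ⟨_, rfl⟩
  have hR0 : 0 ≤ R := by rw [hR]; exact Finset.sum_nonneg fun i _ => abs_nonneg _
  have hb : ∀ k, |∑ p ∈ T k, η p| ≤ R := fun k => by
    rw [hR]
    exact (Finset.abs_sum_le_sum_abs _ _).trans
      (Finset.sum_le_sum_of_subset_of_nonneg (hTS k) fun _ _ _ => abs_nonneg _)
  have h1 : Z η ≤ W * Real.exp R := by
    rw [hZ, hW, Finset.sum_mul]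
    refine Finset.sum_le_sum fun k _ => mul_le_mul_of_nonneg_left (Real.exp_le_exp.2 ?_) (hw k).le
    exact (le_abs_self _).trans (hb k)
  have h2 : W * Real.exp (-R) ≤ Z η := by
    rw [hZ, hW, Finset.sum_mul]
    refine Finset.sum_le_sum fun k _ => mul_le_mul_of_nonneg_left (Real.exp_le_exp.2 ?_) (hw k).le
    have := neg_le_of_abs_le (hb k)
    linarith
  have hZ0 : 0 < Z η := lt_of_lt_of_le (by positivity) h2
  have h3 : Real.log (Z η) ≤ Real.log W + R := by
    have := Real.log_le_log hZ0 h1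
    rwa [Real.log_mul hW0.ne' (Real.exp_pos _).ne', Real.log_exp] at this
  have h4 : Real.log W - R ≤ Real.log (Z η) := by
    have := Real.log_le_log (by positivity) h2
    rw [Real.log_mul hW0.ne' (Real.exp_pos _).ne', Real.log_exp] at this
    linarith
  rw [← hR, ← hW]
  have h5 : |Real.log (Z η)| ≤ |Real.log W| + R := by
    rw [abs_le]
    constructor
    · linarith [neg_abs_le (Real.log W)]
    · linarith [le_abs_self (Real.log W)]
  nlinarith [abs_nonneg (Real.log W)]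

/-- A partition function depends on its sites only. -/
theorem PFs.dep {A : Set Pt} {Z : Env → ℝ} (h : PFs A Z) : DependsOn Z A := by
  obtain ⟨ι, hι, w, T, hw, hT, hZ⟩ := h
  intro η η' hη
  rw [hZ, hZ]
  refine Finset.sum_congr rfl fun k _ => ?_
  congr 2
  exact Finset.sum_congr rfl fun p hp => hη p (hT k p hp)

section transfer

variable {μ : Measure ℝ} [IsProbabilityMeasure μ]

/-- The coordinates in a finite set of sites. -/
def prj (S : Finset Pt) (η : Env) : Fin S.card → ℝ := fun i => η (S.equivFin.symm i)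

lemma prj_mp (S : Finset Pt) : MeasurePreserving (prj S) (law μ) (PN μ S.card) := by
  have h1 : MeasurePreserving (S.restrict : Env → (S → ℝ)) (law μ) (Measure.pi fun _ : S => μ) :=
    ⟨Finset.measurable_restrict S, Measure.infinitePi_map_restrict _⟩
  have h2 := measurePreserving_piCongrLeft (α := fun _ : Fin S.card => ℝ) (fun _ : Fin S.card => μ)
    S.equivFin
  have h3 := h2.comp h1
  have e : prj S = (MeasurableEquiv.piCongrLeft (fun _ : Fin S.card => ℝ) S.equivFin) ∘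
      (S.restrict : Env → (S → ℝ)) := by
    funext η i
    obtain ⟨p, rfl⟩ := S.equivFin.surjective i
    rw [Function.comp_apply]
    rw [MeasurableEquiv.piCongrLeft_apply_apply]
    simp [prj]
  rw [e]
  exact h3

/-- LEMMA LA for partition functions of the environment. -/
theorem luck_env (hEM : Pool.Agent.W_7d29a1_h47.EM μ) (hnd : Pool.Agent.W_7d29a1_h47.Nondeg μ) {δ : ℝ}
    (hδ : 0 < δ) (hδ1 : δ ≤ 1) {K : ℝ} (hK : 0 ≤ K) :
    ∃ B U0 : ℝ, 1 < B ∧ 0 < U0 ∧ ∀ (A : Set Pt) (Z : Env → ℝ) (c : ℝ), PFs A Z → (∃ η, Z η ≠ 0) →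
      ∀ F : Env → ℝ, (∀ η, F η = c + Real.log (Z η)) → ∀ U : ℝ, U0 ≤ U →
      δ * U ^ 2 ≤ ∫ η, min ((F η - ∫ ξ, F ξ ∂(law μ)) ^ 2) (U ^ 2) ∂(law μ) →
      ∃ ψ : ℝ → ℝ, Measurable ψ ∧ (∀ t, 0 ≤ ψ t) ∧ (∀ t, ψ t ≤ B) ∧ ∫ η, ψ (F η) ∂(law μ) = 1 ∧
        ∫ η, F η ∂(law μ) + K * U ≤ ∫ η, ψ (F η) * F η ∂(law μ) := by
  classical
  obtain ⟨B, U0, hB, hU0, h⟩ := luck_Zf (ν := μ) hEM hnd hδ hδ1 hK
  refine ⟨B, U0, hB, hU0, ?_⟩
  rintro A Z c ⟨ι, hι, w, T, hw, -, hZ⟩ ⟨η0, hη0⟩ F hF U hU hfl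
  have hne : Nonempty ι := by
    by_contra hcon
    rw [not_nonempty_iff] at hcon
    exact hη0 (by rw [hZ]; simp)
  obtain ⟨S, hS⟩ : ∃ S : Finset Pt, S = Finset.univ.biUnion T := ⟨_, rfl⟩
  have hTS : ∀ k, T k ⊆ S := fun k => by
    rw [hS]
    exact Finset.subset_biUnion_of_mem T (Finset.mem_univ k)
  obtain ⟨T', hT'⟩ : ∃ T' : ι → Finset (Fin S.card), T' = fun k =>
      Finset.univ.filter fun i => ((S.equivFin.symm i : S) : Pt) ∈ T k := ⟨_, rfl⟩
  have hsum : ∀ (η : Env) (k : ι), ∑ i ∈ T' k, prj S η i = ∑ p ∈ T k, η p := by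
    intro η k
    rw [hT', Finset.sum_filter]
    have e1 : ∑ i : Fin S.card, (if ((S.equivFin.symm i : S) : Pt) ∈ T k then prj S η i else 0) =
        ∑ q : S, (if (q : Pt) ∈ T k then η q else 0) :=
      Equiv.sum_comp S.equivFin.symm fun q : S => if (q : Pt) ∈ T k then η q else 0
    rw [e1, Finset.sum_coe_sort S fun p => if p ∈ T k then η p else 0, ← Finset.sum_filter]
    congr 1
    ext p
    rw [Finset.mem_filter]
    exact ⟨fun hp => hp.2, fun hp => ⟨hTS k hp, hp⟩⟩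
  obtain ⟨F', hF'⟩ : ∃ F' : (Fin S.card → ℝ) → ℝ, F' = fun x => c + Real.log (Zf w T' x) := ⟨_, rfl⟩
  have hFF : ∀ η, F η = F' (prj S η) := by
    intro η
    rw [hF, hF', hZ]
    unfold Zf
    congr 2
    exact Finset.sum_congr rfl fun k _ => by rw [hsum]
  have hmp := prj_mp (μ := μ) S
  have hF'm : Measurable F' := by
    rw [hF']
    exact (Real.measurable_log.comp Zf_meas).const_add c
  have tr : ∀ G : (Fin S.card → ℝ) → ℝ, Measurable G →
      ∫ η, G (prj S η) ∂(law μ) = ∫ x, G x ∂(PN μ S.card) := by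
    intro G hG
    rw [← hmp.map_eq]
    exact (integral_map hmp.measurable.aemeasurable hG.aestronglyMeasurable).symm
  have e1 : ∫ ξ, F ξ ∂(law μ) = ∫ x, F' x ∂(PN μ S.card) := by
    simp_rw [hFF]
    exact tr F' hF'm
  have e2 : ∫ η, min ((F η - ∫ ξ, F ξ ∂(law μ)) ^ 2) (U ^ 2) ∂(law μ) =
      ∫ x, min ((F' x - ∫ y, F' y ∂(PN μ S.card)) ^ 2) (U ^ 2) ∂(PN μ S.card) := by
    rw [e1]
    simp_rw [hFF]
    exact tr (fun x => min ((F' x - ∫ y, F' y ∂(PN μ S.card)) ^ 2) (U ^ 2))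
      (((hF'm.sub_const _).pow_const 2).min measurable_const)
  rw [e2] at hfl
  obtain ⟨ψ, h1, h2, h3, h4, h5⟩ := h S.card ι w T' c hw F' (fun x => by rw [hF']) U hU hfl
  refine ⟨ψ, h1, h2, h3, ?_, ?_⟩
  · rw [← h4]
    simp_rw [hFF]
    exact tr (fun x => ψ (F' x)) (h1.comp hF'm)
  · rw [e1]
    have e3 : ∫ η, ψ (F η) * F η ∂(law μ) = ∫ x, ψ (F' x) * F' x ∂(PN μ S.card) := by
      simp_rw [hFF]
      exact tr (fun x => ψ (F' x) * F' x) ((h1.comp hF'm).mul hF'm)
    rw [e3]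
    exact h5

/-- THE GROWTH STEP. A fluctuation `U` (in the truncated second moment) of a free energy `F ≤ V_l` which
depends on the rows `0 < t ≤ l` forces the mean cost of the cheapest reference displacements up to time
`M ≥ B l` to be at least a multiple of `K U`. All laws, all tilts. -/
theorem growth_step (hEM : Pool.Agent.W_7d29a1_h47.EM μ) (hnd : Pool.Agent.W_7d29a1_h47.Nondeg μ) {δ : ℝ}
    (hδ : 0 < δ) (hδ1 : δ ≤ 1) {K : ℝ} (hK : 0 ≤ K) :
    ∃ B U0 : ℝ, 1 < B ∧ 0 < U0 ∧ ∀ (s : ℝ) (l M : ℕ) (z : ℕ → ℤ) (A : ℝ) (Z : Env → ℝ) (c : ℝ)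
      (F : Env → ℝ) (U : ℝ), (∀ m ≤ M, 0 ≤ z m ∧ z m ≤ m) →
      (∀ m ≤ M, ∫ η, max (X μ s η 0 m (z m)) 0 ∂(law μ) ≤ A) → B * l ≤ M →
      PFs (rows 0 l) Z → (∃ η, Z η ≠ 0) → (∀ η, F η = c + Real.log (Z η)) → (∀ η, F η ≤ V μ s η 0 l) →
      U0 ≤ U → δ * U ^ 2 ≤ ∫ η, min ((F η - ∫ ξ, F ξ ∂(law μ)) ^ 2) (U ^ 2) ∂(law μ) →
      K * U ≤ 6 * A - ∫ η, F η ∂(law μ) := by
  obtain ⟨B, U0, hB, hU0, h⟩ := luck_env (μ := μ) hEM hnd hδ hδ1 hK
  refine ⟨B, U0, hB, hU0, ?_⟩
  intro s l M z A Z c F U hz hX hBM hZ hne hF hFV hU hfl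
  obtain ⟨ψ, h1, h2, h3, h4, h5⟩ := h (rows 0 l) Z c hZ hne F hF U hU hfl
  have hFe : F = fun η => c + Real.log (Z η) := funext hF
  have hFS : Sub F := by
    rw [hFe]
    exact hZ.log_Sub hne c
  have hFm : Measurable F := hFS.1
  have hFd : DependsOn F (rows 0 l) := by
    intro η η' hη
    rw [hF, hF, hZ.dep hη]
  have h6 := Pool.Agent.W_7d29a1_h60.luck_density (μ := μ) hEM s l M z hz hX (f := fun η => ψ (F η)) (D := B)
    (h1.comp hFm) (fun η => h2 _) (fun η => h3 _) h4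
    (fun η η' hη => by show ψ (F η) = ψ (F η'); rw [hFd hη]) hBM
  have hb : ∀ η, ‖ψ (F η)‖ ≤ B := fun η => by
    rw [Real.norm_eq_abs, abs_of_nonneg (h2 _)]
    exact h3 _
  have hV : Integrable (fun η => ψ (F η) * V μ s η 0 l) (law μ) :=
    (Sub.integrable hEM (Sub_V (μ := μ) (s := s) 0 l)).bdd_mul (c := B)
      (h1.comp hFm).aestronglyMeasurable (Filter.Eventually.of_forall hb)
  have hψF : Integrable (fun η => ψ (F η) * F η) (law μ) :=
    (Sub.integrable hEM hFS).bdd_mul (c := B) (h1.comp hFm).aestronglyMeasurable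
      (Filter.Eventually.of_forall hb)
  have h7 : ∫ η, ψ (F η) * F η ∂(law μ) ≤ ∫ η, ψ (F η) * V μ s η 0 l ∂(law μ) :=
    integral_mono hψF hV fun η => mul_le_mul_of_nonneg_left (hFV η) (h2 _)
  linarith

/-- Fluctuations in probability give fluctuations in the truncated second moment. -/
theorem fluct_of_prob {F : Env → ℝ} (hF : Measurable F) {b c U : ℝ} (hc : 0 ≤ c) (hc1 : c ≤ 1)
    (hU : 0 ≤ U) (h : c ≤ (law μ).real {η | c * U ≤ |F η - b|}) :
    c ^ 3 * U ^ 2 ≤ ∫ η, min ((F η - b) ^ 2) (U ^ 2) ∂(law μ) := by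
  have hm : MeasurableSet {η | c * U ≤ |F η - b|} :=
    measurableSet_le measurable_const (hF.sub_const b).abs
  have h1 : ∀ η, {η | c * U ≤ |F η - b|}.indicator (fun _ => (c * U) ^ 2) η ≤
      min ((F η - b) ^ 2) (U ^ 2) := by
    intro η
    by_cases hη : c * U ≤ |F η - b|
    · rw [Set.indicator_of_mem (show η ∈ {η | c * U ≤ |F η - b|} from hη)]
      refine le_min ?_ ?_
      · rw [← sq_abs (F η - b)]
        exact pow_le_pow_left₀ (mul_nonneg hc hU) hη 2
      · exact pow_le_pow_left₀ (mul_nonneg hc hU) (by nlinarith) 2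
    · rw [Set.indicator_of_notMem (show η ∉ {η | c * U ≤ |F η - b|} from hη)]
      exact le_min (sq_nonneg _) (sq_nonneg _)
  have h2 : Integrable (fun η => min ((F η - b) ^ 2) (U ^ 2)) (law μ) := by
    refine (integrable_const (U ^ 2)).mono'
      (((hF.sub_const b).pow_const 2).min measurable_const).aestronglyMeasurable
      (Filter.Eventually.of_forall fun η => ?_)
    rw [Real.norm_eq_abs, abs_of_nonneg (le_min (sq_nonneg _) (sq_nonneg _))]
    exact min_le_right _ _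
  have h3 := integral_mono ((integrable_const ((c * U) ^ 2)).indicator hm) h2 h1
  rw [integral_indicator hm, setIntegral_const, smul_eq_mul] at h3
  have h4 : c * (c * U) ^ 2 ≤ (law μ).real {η | c * U ≤ |F η - b|} * (c * U) ^ 2 :=
    mul_le_mul_of_nonneg_right h (sq_nonneg _)
  calc c ^ 3 * U ^ 2 = c * (c * U) ^ 2 := by ring
    _ ≤ _ := h4.trans h3

/-- THE GROWTH STEP for the luck `V_l` itself and for all point to point costs. `B`, `U0` depend on the
law, `c` and `K` only. -/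
theorem growth_XV (hEM : Pool.Agent.W_7d29a1_h47.EM μ) (hnd : Pool.Agent.W_7d29a1_h47.Nondeg μ) {c : ℝ}
    (hc : 0 < c) (hc1 : c ≤ 1) {K : ℝ} (hK : 0 ≤ K) :
    ∃ B U0 : ℝ, 1 < B ∧ 0 < U0 ∧ ∀ (s : ℝ) (l M : ℕ) (z : ℕ → ℤ) (A U : ℝ),
      (∀ m ≤ M, 0 ≤ z m ∧ z m ≤ m) →
      (∀ m ≤ M, ∫ η, max (X μ s η 0 m (z m)) 0 ∂(law μ) ≤ A) → B * l ≤ M → U0 ≤ U →
      (c ≤ (law μ).real {η | c * U ≤ |V μ s η 0 l - ∫ ξ, V μ s ξ 0 l ∂(law μ)|} →
        K * U ≤ 6 * A - ∫ η, V μ s η 0 l ∂(law μ)) ∧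
      ∀ y : ℤ, 0 ≤ y → y ≤ l → c ≤ (law μ).real {η | c * U ≤ |X μ s η 0 l y - e μ s l y|} →
        K * U ≤ 6 * A + e μ s l y := by
  have hc3 : 0 < c ^ 3 := by positivity
  have hc31 : c ^ 3 ≤ 1 := pow_le_one₀ hc.le hc1
  obtain ⟨B, U0, hB, hU0, h⟩ := growth_step (μ := μ) hEM hnd hc3 hc31 hK
  refine ⟨B, U0, hB, hU0, ?_⟩
  intro s l M z A U hz hX hBM hU
  have hU' : 0 ≤ U := hU0.le.trans hU
  constructor
  · intro hfl
    refine h s l M z A (fun η => WS μ s η 0 l (Finset.Icc (0 : ℤ) l)) 0 (fun η => V μ s η 0 l) U hz hX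
      hBM ?_ ?_ ?_ ?_ hU ?_
    · have := WS_PFs μ s (0 : Pt) l (Finset.Icc (0 : ℤ) l)
      simpa using this
    · refine ⟨0, ne_of_gt ?_⟩
      unfold WS
      refine Finset.sum_pos (fun y hy => ?_) ⟨0, by simp⟩
      rw [Finset.mem_Icc] at hy
      exact W_pos _ _ hy.1 hy.2
    · intro η
      rw [zero_add]
      rfl
    · intro η
      exact le_rfl
    · exact fluct_of_prob (measurable_V 0 l) hc.le hc1 hU' hfl
  · intro y hy0 hy1 hfl
    have hXe : ∀ η : Env, -X μ s η 0 l y = Real.log (W μ s η 0 l y) := fun η => by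
      unfold X
      rw [neg_neg]
    have hint : ∫ ξ, -X μ s ξ 0 l y ∂(law μ) = -e μ s l y := by
      rw [integral_neg]
      rfl
    have h1 := h s l M z A (fun η => W μ s η 0 l y) 0 (fun η => -X μ s η 0 l y) U hz hX
      hBM (by simpa using W_PFs μ s (0 : Pt) l y) ⟨0, (W_pos _ _ hy0 hy1).ne'⟩
      (fun η => by rw [zero_add, hXe]) (fun η => neg_X_le_V η 0 hy0 hy1) hU ?_
    · rw [hint] at h1
      linarith
    · rw [hint]
      refine fluct_of_prob (measurable_X 0 l y).neg hc.le hc1 hU' (hfl.trans_eq ?_)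
      congr 1
      ext η
      have e1 : |(-fun η : Env => X μ s η 0 l y) η - -e μ s l y| = |X μ s η 0 l y - e μ s l y| := by
        rw [← abs_neg]
        congr 1
        show -(-X μ s η 0 l y - -e μ s l y) = X μ s η 0 l y - e μ s l y
        ring
      show c * U ≤ |X μ s η 0 l y - e μ s l y| ↔ c * U ≤ |(-fun η : Env => X μ s η 0 l y) η - -e μ s l y|
      rw [e1]

end transfer

end

end Pool.Agent.W_7d29a1_h42
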