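import Mathlib

/-!
Product measures on `Fin N → ℝ`, functions of linear growth, disintegration along the first coordinate.
-/

namespace Pool.Agent.W_7d29a1_h42

open MeasureTheory Set

noncomputable section

/-- The law of `N` independent variables with law `ν`. -/
abbrev PN (ν : Measure ℝ) (N : ℕ) : Measure (Fin N → ℝ) := Measure.pi fun _ : Fin N => ν

/-- Put `x` in front of `z`. -/
def cn {N : ℕ} (x : ℝ) (z : Fin N → ℝ) : Fin (N + 1) → ℝ := Fin.cons x z

@[simp] lemma cn_zero {N : ℕ} (x : ℝ) (z : Fin N → ℝ) : cn x z 0 = x := rfl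

@[simp] lemma cn_succ {N : ℕ} (x : ℝ) (z : Fin N → ℝ) (i : Fin N) : cn x z i.succ = z i := rfl

lemma cn_update {N : ℕ} (x : ℝ) (z : Fin N → ℝ) (i : Fin N) (t : ℝ) :
    cn x (Function.update z i t) = Function.update (cn x z) i.succ t := by
  unfold cn
  rw [Fin.cons_update]

lemma update_cn_zero {N : ℕ} (x t : ℝ) (z : Fin N → ℝ) : Function.update (cn x z) 0 t = cn t z := by
  unfold cn
  rw [Fin.update_cons_zero]

lemma cn_self {N : ℕ} (x : Fin (N + 1) → ℝ) : cn (x 0) (fun i => x i.succ) = x := by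
  unfold cn
  exact Fin.cons_self_tail x

lemma measurable_cn {N : ℕ} : Measurable fun p : ℝ × (Fin N → ℝ) => cn p.1 p.2 := by
  refine measurable_pi_lambda _ fun i => ?_
  refine Fin.cases ?_ (fun j => ?_) i
  · exact measurable_fst
  · exact (measurable_pi_apply j).comp measurable_snd

lemma measurable_cn_right {N : ℕ} (x : ℝ) : Measurable fun z : Fin N → ℝ => cn x z :=
  measurable_cn.comp (measurable_const.prodMk measurable_id)

lemma cn_mp (ν : Measure ℝ) [IsProbabilityMeasure ν] (N : ℕ) :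
    MeasurePreserving (fun p : ℝ × (Fin N → ℝ) => cn p.1 p.2) (ν.prod (PN ν N)) (PN ν (N + 1)) := by
  have h := (measurePreserving_piFinSuccAbove (fun _ : Fin (N + 1) => ν) 0).symm
  have e : (fun p : ℝ × (Fin N → ℝ) => cn p.1 p.2) =
      (MeasurableEquiv.piFinSuccAbove (fun _ : Fin (N + 1) => ℝ) 0).symm := by
    funext p
    rw [MeasurableEquiv.piFinSuccAbove_symm_apply]
    simp [Fin.insertNthEquiv, cn]
  rw [e]
  exact h

/-- Measurable functions of linear growth. -/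
def LG (N : ℕ) (h : (Fin N → ℝ) → ℝ) : Prop :=
  Measurable h ∧ ∃ C, 0 ≤ C ∧ ∀ x, |h x| ≤ C * (1 + ∑ i, |x i|)

/-- The law has a first moment. -/
def FM (ν : Measure ℝ) : Prop := Integrable (fun t : ℝ => t) ν

lemma int_abs_eval {ν : Measure ℝ} [IsProbabilityMeasure ν] (hν : FM ν) (N : ℕ) (i : Fin N) :
    Integrable (fun x : Fin N → ℝ => |x i|) (PN ν N) := by
  have h : Integrable (fun t : ℝ => |t|) ν := hν.abs
  exact integrable_comp_eval (μ := fun _ : Fin N => ν) (i := i) h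

lemma LG.integrable {ν : Measure ℝ} [IsProbabilityMeasure ν] (hν : FM ν) {N : ℕ} {h : (Fin N → ℝ) → ℝ}
    (hh : LG N h) : Integrable h (PN ν N) := by
  obtain ⟨hm, C, hC, hb⟩ := hh
  have hi : Integrable (fun x : Fin N → ℝ => C * (1 + ∑ i, |x i|)) (PN ν N) :=
    ((integrable_const (1 : ℝ)).add (integrable_finsetSum _ fun i _ => int_abs_eval hν N i)).const_mul C
  refine hi.mono' hm.aestronglyMeasurable (Filter.Eventually.of_forall fun x => ?_)
  rw [Real.norm_eq_abs]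
  exact hb x

lemma LG.sec {N : ℕ} {h : (Fin (N + 1) → ℝ) → ℝ} (hh : LG (N + 1) h) (x : ℝ) :
    LG N fun z => h (cn x z) := by
  obtain ⟨hm, C, hC, hb⟩ := hh
  refine ⟨hm.comp (measurable_cn_right x), C * (1 + |x|), by positivity, fun z => ?_⟩
  refine (hb _).trans ?_
  rw [Fin.sum_univ_succ]
  simp only [cn_zero, cn_succ]
  have h1 : 0 ≤ ∑ i, |z i| := Finset.sum_nonneg fun i _ => abs_nonneg _
  have h2 : 0 ≤ |x| := abs_nonneg x
  have h3 : 1 + (|x| + ∑ i, |z i|) ≤ (1 + |x|) * (1 + ∑ i, |z i|) := by nlinarith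
  calc C * (1 + (|x| + ∑ i, |z i|)) ≤ C * ((1 + |x|) * (1 + ∑ i, |z i|)) :=
        mul_le_mul_of_nonneg_left h3 hC
    _ = C * (1 + |x|) * (1 + ∑ i, |z i|) := by ring

lemma LG.add {N : ℕ} {h k : (Fin N → ℝ) → ℝ} (hh : LG N h) (hk : LG N k) : LG N fun x => h x + k x := by
  obtain ⟨hm, C, hC, hb⟩ := hh
  obtain ⟨km, D, hD, kb⟩ := hk
  refine ⟨hm.add km, C + D, by positivity, fun x => ?_⟩
  calc |h x + k x| ≤ |h x| + |k x| := abs_add_le _ _
    _ ≤ C * (1 + ∑ i, |x i|) + D * (1 + ∑ i, |x i|) := add_le_add (hb x) (kb x)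
    _ = (C + D) * (1 + ∑ i, |x i|) := by ring

lemma LG.mul_bdd {N : ℕ} {h k : (Fin N → ℝ) → ℝ} (hh : LG N h) (hk : Measurable k) {B : ℝ}
    (hB : ∀ x, |k x| ≤ B) : LG N fun x => k x * h x := by
  obtain ⟨hm, C, hC, hb⟩ := hh
  refine ⟨hk.mul hm, |B| * C, by positivity, fun x => ?_⟩
  rw [abs_mul, mul_assoc]
  exact mul_le_mul ((hB x).trans (le_abs_self B)) (hb x) (abs_nonneg _) (abs_nonneg _)

lemma LG.bdd {N : ℕ} {k : (Fin N → ℝ) → ℝ} (hk : Measurable k) {B : ℝ} (hB : ∀ x, |k x| ≤ B) :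
    LG N k := by
  refine ⟨hk, |B|, abs_nonneg _, fun x => ?_⟩
  have h1 : 0 ≤ ∑ i, |x i| := Finset.sum_nonneg fun i _ => abs_nonneg _
  have h2 : |k x| ≤ |B| := (hB x).trans (le_abs_self B)
  have h3 : 0 ≤ |B| := abs_nonneg B
  nlinarith

lemma LG.const (N : ℕ) (c : ℝ) : LG N fun _ => c := LG.bdd measurable_const fun _ => le_rfl

lemma LG.pos {N : ℕ} {h : (Fin N → ℝ) → ℝ} (hh : LG N h) (s : ℝ) : LG N fun x => max (h x - s) 0 := by
  obtain ⟨hm, C, hC, hb⟩ := hh
  refine ⟨(hm.sub_const s).max measurable_const, C + |s|, by positivity, fun x => ?_⟩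
  have h0 : |max (h x - s) 0| ≤ |h x| + |s| := by
    rw [abs_of_nonneg (le_max_right _ _)]
    refine max_le ?_ (by positivity)
    linarith [le_abs_self (h x), neg_abs_le s]
  have h1 : 0 ≤ ∑ i, |x i| := Finset.sum_nonneg fun i _ => abs_nonneg _
  have h2 := hb x
  have h3 : 0 ≤ |s| := abs_nonneg s
  nlinarith

/-- Disintegration along the first coordinate. -/
lemma int_cn {ν : Measure ℝ} [IsProbabilityMeasure ν] {N : ℕ} {h : (Fin (N + 1) → ℝ) → ℝ}
    (hh : Integrable h (PN ν (N + 1))) :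
    ∫ x, h x ∂(PN ν (N + 1)) = ∫ x, ∫ z, h (cn x z) ∂(PN ν N) ∂ν := by
  have mp := cn_mp ν N
  have h1 : ∫ x, h x ∂(PN ν (N + 1)) = ∫ p : ℝ × (Fin N → ℝ), h (cn p.1 p.2) ∂(ν.prod (PN ν N)) := by
    rw [← mp.map_eq]
    rw [integral_map mp.measurable.aemeasurable]
    rw [mp.map_eq]
    exact hh.aestronglyMeasurable
  have h2 : Integrable (fun p : ℝ × (Fin N → ℝ) => h (cn p.1 p.2)) (ν.prod (PN ν N)) :=
    mp.integrable_comp_of_integrable hh
  rw [h1, integral_prod _ h2]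

lemma int_cn' {ν : Measure ℝ} [IsProbabilityMeasure ν] {N : ℕ} {h : (Fin (N + 1) → ℝ) → ℝ}
    (hh : Integrable h (PN ν (N + 1))) :
    Integrable (fun x => ∫ z, h (cn x z) ∂(PN ν N)) ν := by
  have mp := cn_mp ν N
  have h2 : Integrable (fun p : ℝ × (Fin N → ℝ) => h (cn p.1 p.2)) (ν.prod (PN ν N)) :=
    mp.integrable_comp_of_integrable hh
  exact h2.integral_prod_left

lemma measurable_int_cn {ν : Measure ℝ} [IsProbabilityMeasure ν] {N : ℕ} {h : (Fin (N + 1) → ℝ) → ℝ}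
    (hh : Measurable h) : Measurable fun x => ∫ z, h (cn x z) ∂(PN ν N) := by
  have h1 : StronglyMeasurable fun p : ℝ × (Fin N → ℝ) => h (cn p.1 p.2) :=
    (hh.comp measurable_cn).stronglyMeasurable
  exact h1.integral_prod_right'.measurable

end

end Pool.Agent.W_7d29a1_h42
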