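import Pool.Agent.W_7d29a1_h42.LuckKey

/-!
The induction which gives luck from energy.
-/

namespace Pool.Agent.W_7d29a1_h42

open MeasureTheory Set

noncomputable section

variable {ν : Measure ℝ} [IsProbabilityMeasure ν] {M : ℝ}

/-- The parameters of the one step perturbation. -/
structure Par (ν : Measure ℝ) (xm xp β c2 κ N0 : ℝ) : Prop where
  hx : xm < xp
  hq : 0 < ν.real (Ici xp)
  hβ : 0 ≤ β
  hc2 : 0 ≤ c2
  hκ : 0 ≤ κ
  hκ1 : κ * β ≤ 1 / 2
  hκ2 : ν.real (Iic xm) / ν.real (Ici xp) * (κ * β) ≤ 1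
  hN0 : 0 < N0

/-- The constant in the exponent. -/
def Cq (ν : Measure ℝ) (xm xp : ℝ) : ℝ :=
  ν.real (Iic xm) * (1 + ν.real (Iic xm) / ν.real (Ici xp))

omit [IsProbabilityMeasure ν] in
lemma Cq_nonneg (xm xp : ℝ) : 0 ≤ Cq ν xm xp := by
  unfold Cq
  have h1 : 0 ≤ ν.real (Iic xm) := measureReal_nonneg
  have h2 : 0 ≤ ν.real (Ici xp) := measureReal_nonneg
  positivity

theorem key (hν : FM ν) {xm xp β c2 κ N0 : ℝ} (hP : Par ν xm xp β c2 κ N0) (N : ℕ) :
    ∀ (Go Fp : (Fin N → ℝ) → ℝ) (g : Fin N → (Fin N → ℝ) → ℝ) (A f s : ℝ), LG N Go → LG N Fp →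
      GD ν xm β c2 N g → A ≤ M → 0 < f → f ≤ 2 * N0 →
      (∀ x y, Go x + ∑ i, g i x * (y i - x i) ≤ Fp y) →
      ∫ x, Go x ∂(PN ν N) + ((xp - xm) * c2 * κ) * (IS ν M N g A -
        (M - A) * (f / N0) * Real.exp (Cq ν xm xp * κ ^ 2 * (M - A))) ≤
      s + (2 * N0 / f) * ∫ x, max (Fp x - s) 0 ∂(PN ν N) := by
  have hcc : 0 ≤ (xp - xm) * c2 * κ := mul_nonneg (mul_nonneg (by linarith [hP.hx]) hP.hc2) hP.hκ
  have hC0 : 0 ≤ Cq ν xm xp := Cq_nonneg xm xp
  have hN0 := hP.hN0
  induction N with
  | zero =>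
    intro Go Fp g A f s hGo hFp hg hA hf0 hf1 h
    have h1 : ∀ x, Go x ≤ Fp x := fun x => by
      have := h x x
      simpa using this
    have hB : 1 ≤ 2 * N0 / f := by rw [le_div_iff₀ hf0]; linarith
    have h2 := key_triv hν hGo hFp h1 hB s
    have h3 : 0 ≤ (M - A) * (f / N0) * Real.exp (Cq ν xm xp * κ ^ 2 * (M - A)) :=
      mul_nonneg (mul_nonneg (by linarith) (by positivity)) (Real.exp_pos _).le
    have h4 := mul_nonneg hcc h3
    simp only [IS]
    nlinarith
  | succ N ih =>
    intro Go Fp g A f s hGo hFp hg hA hf0 hf1 h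
    have h1 : ∀ x, Go x ≤ Fp x := fun x => by
      have := h x x
      simpa using this
    have hB : 1 ≤ 2 * N0 / f := by rw [le_div_iff₀ hf0]; linarith
    have htriv := key_triv hν hGo hFp h1 hB s
    have hpen : 0 ≤ (M - A) * (f / N0) * Real.exp (Cq ν xm xp * κ ^ 2 * (M - A)) :=
      mul_nonneg (mul_nonneg (by linarith) (by positivity)) (Real.exp_pos _).le
    by_cases hcase1 : A + am ν g ^ 2 ≤ M
    swap
    · have hIS : IS ν M (N + 1) g A = 0 := by
        simp only [IS]
        rw [if_neg hcase1]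
      rw [hIS]
      have h4 := mul_nonneg hcc hpen
      nlinarith
    by_cases hcase2 : N0 < f
    · have h2 : IS ν M (N + 1) g A ≤ M - A := IS_le _ _ _ hg.meas hA
      have h3 : (M - A) * 1 ≤ (M - A) * (f / N0 * Real.exp (Cq ν xm xp * κ ^ 2 * (M - A))) := by
        refine mul_le_mul_of_nonneg_left ?_ (by linarith)
        have h5 : 1 ≤ f / N0 := by rw [le_div_iff₀ hN0]; linarith
        have h6 : 1 ≤ Real.exp (Cq ν xm xp * κ ^ 2 * (M - A)) := by
          refine Real.one_le_exp ?_
          exact mul_nonneg (mul_nonneg hC0 (sq_nonneg _)) (by linarith)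
        nlinarith
      have h4 : ((xp - xm) * c2 * κ) * (IS ν M (N + 1) g A -
          (M - A) * (f / N0) * Real.exp (Cq ν xm xp * κ ^ 2 * (M - A))) ≤ 0 := by
        refine mul_nonpos_of_nonneg_of_nonpos hcc ?_
        rw [mul_assoc]
        linarith
      linarith
    push Not at hcase2
    -- the main case
    obtain ⟨a, ha⟩ : ∃ a, a = am ν g := ⟨_, rfl⟩
    obtain ⟨u, hu⟩ : ∃ u, u = κ * a := ⟨_, rfl⟩
    obtain ⟨m, hm⟩ : ∃ m, m = ν.real (Iic xm) := ⟨_, rfl⟩
    obtain ⟨q, hq⟩ : ∃ q, q = ν.real (Ici xp) := ⟨_, rfl⟩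
    obtain ⟨ρ, hρ⟩ : ∃ ρ, ρ = m / q := ⟨_, rfl⟩
    have ha0 : 0 ≤ a := by rw [ha]; exact am_nonneg hg
    have ha1 : a ≤ β := by rw [ha]; exact am_le hg
    have hu0 : 0 ≤ u := by rw [hu]; exact mul_nonneg hP.hκ ha0
    have huβ : u ≤ κ * β := by rw [hu]; exact mul_le_mul_of_nonneg_left ha1 hP.hκ
    have hu1 : u ≤ 1 / 2 := huβ.trans hP.hκ1
    have hm0 : 0 ≤ m := by rw [hm]; exact measureReal_nonneg
    have hq0 : 0 < q := by rw [hq]; exact hP.hq
    have hρ0 : 0 ≤ ρ := by rw [hρ]; positivity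
    have hρu : ρ * u ≤ 1 := by
      have h2 := hP.hκ2
      rw [← hm, ← hq, ← hρ] at h2
      exact (mul_le_mul_of_nonneg_left huβ hρ0).trans h2
    have hr0 : ∀ y, 1 / 2 ≤ rr xm xp u ρ y := by
      intro y
      have h2 : 0 ≤ ρ * u := mul_nonneg hρ0 hu0
      rcases rr_cases (u := u) (ρ := ρ) hP.hx y with h | h | h <;> rw [h] <;> linarith
    have hr1 : ∀ y, rr xm xp u ρ y ≤ 2 := by
      intro y
      rcases rr_cases (u := u) (ρ := ρ) hP.hx y with h | h | h <;> rw [h] <;> linarith
    rw [← ha] at hcase1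
    obtain ⟨P, hPdef⟩ : ∃ P, P = (M - (A + a ^ 2)) * (f / N0) *
        Real.exp (Cq ν xm xp * κ ^ 2 * (M - (A + a ^ 2))) := ⟨_, rfl⟩
    -- the functions
    obtain ⟨G, hG⟩ : ∃ G : ℝ → ℝ, G = fun x => ∫ z, Go (cn x z) ∂(PN ν N) := ⟨_, rfl⟩
    obtain ⟨γ, hγ⟩ : ∃ γ : ℝ → ℝ, γ = fun x => ∫ z, g 0 (cn x z) ∂(PN ν N) := ⟨_, rfl⟩
    obtain ⟨S, hS⟩ : ∃ S : ℝ → ℝ, S = fun x => IS ν M N (sg g x) (A + a ^ 2) := ⟨_, rfl⟩
    obtain ⟨H, hH⟩ : ∃ H : ℝ → ℝ, H = fun y => ∫ z, max (Fp (cn y z) - s) 0 ∂(PN ν N) := ⟨_, rfl⟩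
    obtain ⟨k, hk⟩ : ∃ k : ℝ → ℝ, k = fun y => s + (2 * N0 / (f * rr xm xp u ρ y)) * H y := ⟨_, rfl⟩
    have hGint : Integrable G ν := by rw [hG]; exact int_cn' (hGo.integrable hν)
    have hγint : Integrable γ ν := by rw [hγ]; exact int_cn' (hg.int 0)
    have hSint : Integrable S ν := by rw [hS]; exact IS_sec_int hg.meas hcase1
    have hHint : Integrable H ν := by rw [hH]; exact int_cn' ((hFp.pos s).integrable hν)
    have hkint : Integrable k ν := by
      have e1 : k = fun y => s + (2 * N0 / f) * ((rr xm xp u ρ y)⁻¹ * H y) := by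
        rw [hk]
        funext y
        have h2 := hr0 y
        have h3 : rr xm xp u ρ y ≠ 0 := by
          intro h0
          rw [h0] at h2
          norm_num at h2
        field_simp
      have e2 : Integrable (fun y => (rr xm xp u ρ y)⁻¹ * H y) ν := by
        refine hHint.bdd_mul (c := 2) (rr_meas xm xp u ρ).inv.aestronglyMeasurable
          (Filter.Eventually.of_forall fun y => ?_)
        have h2 := hr0 y
        rw [Real.norm_eq_abs, abs_of_nonneg (by positivity)]
        rw [inv_le_comm₀ (by linarith) (by norm_num)]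
        norm_num at h2 ⊢
        linarith
      rw [e1]
      exact (integrable_const s).add (e2.const_mul _)
    have hγ0 : ∀ x, 0 ≤ γ x := fun x => by
      rw [hγ]
      exact integral_nonneg fun z => hg.nonneg _ _
    -- the induction hypothesis
    have hmain : ∀ x y, G x + γ x * (y - x) + ((xp - xm) * c2 * κ) * (S x - P * rr xm xp u ρ y) ≤ k y := by
      intro x y
      have hLG : LG N fun z => Go (cn x z) + g 0 (cn x z) * (y - x) := by
        refine (hGo.sec x).add ?_
        have h2 : LG N fun z => g 0 (cn x z) * (fun _ => y - x) z :=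
          LG.mul_bdd (LG.const N (y - x)) ((hg.meas 0).comp (measurable_cn_right x)) (B := β)
            (fun z => by
              rw [abs_of_nonneg (hg.nonneg _ _)]
              exact hg.le _ _)
        exact h2
      have hf' : 0 < f * rr xm xp u ρ y := mul_pos hf0 (by linarith [hr0 y])
      have hf'' : f * rr xm xp u ρ y ≤ 2 * N0 := by
        have := hr1 y
        nlinarith
      have h2 := ih (fun z => Go (cn x z) + g 0 (cn x z) * (y - x)) (fun z => Fp (cn y z)) (sg g x)
        (A + a ^ 2) (f * rr xm xp u ρ y) s hLG (hFp.sec y) (hg.sec x) hcase1 hf' hf'' (fun z z' => by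
          have h3 := h (cn x z) (cn y z')
          rw [Fin.sum_univ_succ] at h3
          simp only [cn_zero, cn_succ] at h3
          simp only [sg]
          linarith)
      have h3 : ∫ z, (Go (cn x z) + g 0 (cn x z) * (y - x)) ∂(PN ν N) = G x + γ x * (y - x) := by
        rw [integral_add ((hGo.sec x).integrable hν), integral_mul_const, hG, hγ]
        refine Integrable.mul_const ?_ _
        refine (integrable_const β).mono' ((hg.meas 0).comp (measurable_cn_right x)).aestronglyMeasurable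
          (Filter.Eventually.of_forall fun z => ?_)
        rw [Real.norm_eq_abs, abs_of_nonneg (hg.nonneg _ _)]
        exact hg.le _ _
      rw [h3] at h2
      have h4 : (M - (A + a ^ 2)) * (f * rr xm xp u ρ y / N0) *
          Real.exp (Cq ν xm xp * κ ^ 2 * (M - (A + a ^ 2))) = P * rr xm xp u ρ y := by
        rw [hPdef]
        ring
      rw [h4] at h2
      have h5 : k y = s + 2 * N0 / (f * rr xm xp u ρ y) * ∫ z, max (Fp (cn y z) - s) 0 ∂(PN ν N) := by
        rw [hk, hH]
      rw [h5, hS]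
      exact h2
    have hh : c2 * a ≤ ∫ x in Iic xm, γ x ∂ν := by
      -- Fubini
      have hmeas : Measurable fun p : ℝ × (Fin N → ℝ) => g 0 (cn p.1 p.2) :=
        (hg.meas 0).comp measurable_cn
      have hint : Integrable (fun p : ℝ × (Fin N → ℝ) => g 0 (cn p.1 p.2)) (ν.prod (PN ν N)) := by
        refine (integrable_const β).mono' hmeas.aestronglyMeasurable
          (Filter.Eventually.of_forall fun p => ?_)
        rw [Real.norm_eq_abs, abs_of_nonneg (hg.nonneg _ _)]
        exact hg.le _ _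
      have hint2 : Integrable (fun p : ℝ × (Fin N → ℝ) => g 0 (cn p.1 p.2))
          ((ν.restrict (Iic xm)).prod (PN ν N)) := by
        refine (integrable_const β).mono' hmeas.aestronglyMeasurable
          (Filter.Eventually.of_forall fun p => ?_)
        rw [Real.norm_eq_abs, abs_of_nonneg (hg.nonneg _ _)]
        exact hg.le _ _
      have h2 : a = ∫ z, ∫ x, g 0 (cn x z) ∂ν ∂(PN ν N) := by
        rw [ha, am, int_cn (hg.int 0)]
        exact integral_integral_swap hint
      have h3 : ∫ x in Iic xm, γ x ∂ν = ∫ z, ∫ x in Iic xm, g 0 (cn x z) ∂ν ∂(PN ν N) := by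
        rw [hγ]
        exact integral_integral_swap hint2
      rw [h2, h3, ← integral_const_mul]
      refine integral_mono (hint.integral_prod_right.const_mul c2) hint2.integral_prod_right fun z => ?_
      have h4 := hg.har 0 (cn 0 z)
      simp only [update_cn_zero] at h4
      exact h4
    have hstep := one_step (ν := ν) (c2 := c2) (a := a) (cc := (xp - xm) * c2 * κ) (P := P) hP.hx hm hq hq0 hρ
      hu0 hu1 hGint hγint hSint hkint hγ0 hmain hh
    -- the right-hand side
    have hr : ∫ y, rr xm xp u ρ y * k y ∂ν = s + (2 * N0 / f) * ∫ x, max (Fp x - s) 0 ∂(PN ν (N + 1)) := by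
      have e1 : ∀ y, rr xm xp u ρ y * k y = s * rr xm xp u ρ y + (2 * N0 / f) * H y := by
        intro y
        rw [hk]
        have h2 := hr0 y
        have h3 : rr xm xp u ρ y ≠ 0 := by
          intro h0
          rw [h0] at h2
          norm_num at h2
        field_simp
      have hI1 : Integrable ((Iic xm).indicator fun _ => (1 : ℝ)) ν :=
        (integrable_const (1 : ℝ)).indicator measurableSet_Iic
      have hJ1 : Integrable ((Ici xp).indicator fun _ => (1 : ℝ)) ν :=
        (integrable_const (1 : ℝ)).indicator measurableSet_Ici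
      have hrI : Integrable (fun y => 1 - u * (Iic xm).indicator (fun _ => (1 : ℝ)) y) ν :=
        (integrable_const (1 : ℝ)).sub (hI1.const_mul u)
      have hrint : Integrable (rr xm xp u ρ) ν := hrI.add (hJ1.const_mul (ρ * u))
      have hr1 : ∫ y, rr xm xp u ρ y ∂ν = 1 := by
        unfold rr
        rw [integral_add hrI (hJ1.const_mul (ρ * u)), integral_sub (integrable_const _) (hI1.const_mul u),
          integral_const_mul, integral_const_mul, integral_indicator measurableSet_Iic,
          integral_indicator measurableSet_Ici]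
        simp only [integral_const, measureReal_restrict_apply_univ, smul_eq_mul, mul_one,
          probReal_univ]
        rw [← hm, ← hq, hρ]
        field_simp
        ring
      simp_rw [e1]
      rw [integral_add (hrint.const_mul s) (hHint.const_mul _), integral_const_mul, integral_const_mul,
        hr1, mul_one, int_cn ((hFp.pos s).integrable hν), hH]
    rw [hr] at hstep
    refine le_trans ?_ hstep
    have hGo' : ∫ x, Go x ∂(PN ν (N + 1)) = ∫ x, G x ∂ν := by
      rw [int_cn (hGo.integrable hν), hG]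
    have hIS : IS ν M (N + 1) g A = a ^ 2 + ∫ x, S x ∂ν := by
      simp only [IS]
      rw [← ha, if_pos hcase1, hS]
    rw [integral_add hGint (hSint.const_mul _), integral_const_mul, hGo', hIS]
    -- the penalty
    have hCq : m * (1 + ρ) = Cq ν xm xp := by
      rw [hρ, hm, hq]
      rfl
    have hexp : P * (1 + u ^ 2 * (m * (1 + ρ))) ≤
        (M - A) * (f / N0) * Real.exp (Cq ν xm xp * κ ^ 2 * (M - A)) := by
      rw [hCq]
      have h2 : 1 + u ^ 2 * Cq ν xm xp ≤ Real.exp (Cq ν xm xp * κ ^ 2 * a ^ 2) := by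
        have h3 := Real.add_one_le_exp (Cq ν xm xp * κ ^ 2 * a ^ 2)
        have h4 : u ^ 2 * Cq ν xm xp = Cq ν xm xp * κ ^ 2 * a ^ 2 := by rw [hu]; ring
        linarith
      have hP0 : 0 ≤ P := by
        rw [hPdef]
        exact mul_nonneg (mul_nonneg (by linarith) (by positivity)) (Real.exp_pos _).le
      calc P * (1 + u ^ 2 * Cq ν xm xp) ≤ P * Real.exp (Cq ν xm xp * κ ^ 2 * a ^ 2) :=
            mul_le_mul_of_nonneg_left h2 hP0
        _ = (M - (A + a ^ 2)) * (f / N0) * Real.exp (Cq ν xm xp * κ ^ 2 * (M - A)) := by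
            rw [hPdef, mul_assoc, ← Real.exp_add]
            ring_nf
        _ ≤ (M - A) * (f / N0) * Real.exp (Cq ν xm xp * κ ^ 2 * (M - A)) := by
            refine mul_le_mul_of_nonneg_right ?_ (Real.exp_pos _).le
            refine mul_le_mul_of_nonneg_right ?_ (by positivity)
            nlinarith [sq_nonneg a]
    have h2 := mul_le_mul_of_nonneg_left hexp hcc
    have h3 : u * (xp - xm) * (c2 * a) = ((xp - xm) * c2 * κ) * a ^ 2 := by rw [hu]; ring
    rw [h3]
    nlinarith

end

end Pool.Agent.W_7d29a1_h42
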