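import Pool.Agent.W_7d29a1_h42.LuckAmp
import Pool.Agent.W_7d29a1_h47.SiteG
import Pool.Agent.W_7d29a1_h47.Defs

/-!
Lemma LA for the logarithm of a partition function: `F = log (Σ_k w_k exp (Σ_{i ∈ T_k} x_i))`.
-/

namespace Pool.Agent.W_7d29a1_h42

open MeasureTheory Set

noncomputable section

/-- A partition function. -/
def Zf {N : ℕ} {ι : Type} [Fintype ι] (w : ι → ℝ) (T : ι → Finset (Fin N)) (x : Fin N → ℝ) : ℝ :=
  ∑ k, w k * Real.exp (∑ i ∈ T k, x i)

/-- The part of the partition function with `i ∈ T k`. -/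
def Zi {N : ℕ} {ι : Type} [Fintype ι] (w : ι → ℝ) (T : ι → Finset (Fin N)) (i : Fin N)
    (x : Fin N → ℝ) : ℝ :=
  ∑ k, if i ∈ T k then w k * Real.exp (∑ i ∈ T k, x i) else 0

/-- The derivatives of `log Zf`. -/
def gf {N : ℕ} {ι : Type} [Fintype ι] (w : ι → ℝ) (T : ι → Finset (Fin N)) (i : Fin N)
    (x : Fin N → ℝ) : ℝ := Zi w T i x / Zf w T x

variable {N : ℕ} {ι : Type} [Fintype ι] [Nonempty ι] {w : ι → ℝ} {T : ι → Finset (Fin N)}

lemma Zf_pos (hw : ∀ k, 0 < w k) (x : Fin N → ℝ) : 0 < Zf w T x :=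
  Finset.sum_pos (fun k _ => mul_pos (hw k) (Real.exp_pos _)) Finset.univ_nonempty

omit [Nonempty ι] in
lemma Zi_nonneg (hw : ∀ k, 0 < w k) (i : Fin N) (x : Fin N → ℝ) : 0 ≤ Zi w T i x :=
  Finset.sum_nonneg fun k _ => by
    split_ifs
    · exact (mul_pos (hw k) (Real.exp_pos _)).le
    · exact le_rfl

omit [Nonempty ι] in
lemma Zi_le (hw : ∀ k, 0 < w k) (i : Fin N) (x : Fin N → ℝ) : Zi w T i x ≤ Zf w T x :=
  Finset.sum_le_sum fun k _ => by
    split_ifs
    · exact le_rfl
    · exact (mul_pos (hw k) (Real.exp_pos _)).le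

omit [Nonempty ι] in
lemma Zf_meas : Measurable (Zf w T) := by
  unfold Zf
  refine Finset.measurable_sum _ fun k _ => ?_
  exact (Real.measurable_exp.comp (Finset.measurable_sum _ fun i _ => measurable_pi_apply i)).const_mul _

omit [Nonempty ι] in
lemma Zi_meas (i : Fin N) : Measurable (Zi w T i) := by
  unfold Zi
  refine Finset.measurable_sum _ fun k _ => ?_
  split_ifs
  · exact (Real.measurable_exp.comp
      (Finset.measurable_sum _ fun i _ => measurable_pi_apply i)).const_mul _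
  · exact measurable_const

omit [Fintype ι] [Nonempty ι] in
lemma sum_abs_bd (k : ι) (x : Fin N → ℝ) :
    |∑ i ∈ T k, x i| ≤ ∑ i, |x i| := by
  refine (Finset.abs_sum_le_sum_abs _ _).trans ?_
  exact Finset.sum_le_sum_of_subset_of_nonneg (Finset.subset_univ _) fun _ _ _ => abs_nonneg _

lemma logZf_LG (hw : ∀ k, 0 < w k) : LG N fun x => Real.log (Zf w T x) := by
  obtain ⟨W, hW⟩ : ∃ W, W = ∑ k, w k := ⟨_, rfl⟩
  have hW0 : 0 < W := by rw [hW]; exact Finset.sum_pos (fun k _ => hw k) Finset.univ_nonempty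
  refine ⟨Real.measurable_log.comp Zf_meas, 1 + |Real.log W|, by positivity, fun x => ?_⟩
  obtain ⟨S, hS⟩ : ∃ S, S = ∑ i, |x i| := ⟨_, rfl⟩
  have hS0 : 0 ≤ S := by rw [hS]; exact Finset.sum_nonneg fun i _ => abs_nonneg _
  have h1 : Zf w T x ≤ W * Real.exp S := by
    rw [hW, Finset.sum_mul]
    refine Finset.sum_le_sum fun k _ => mul_le_mul_of_nonneg_left (Real.exp_le_exp.2 ?_) (hw k).le
    rw [hS]
    exact (le_abs_self _).trans (sum_abs_bd k x)
  have h2 : W * Real.exp (-S) ≤ Zf w T x := by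
    rw [hW, Finset.sum_mul]
    refine Finset.sum_le_sum fun k _ => mul_le_mul_of_nonneg_left (Real.exp_le_exp.2 ?_) (hw k).le
    rw [hS]
    have := neg_le_of_abs_le (sum_abs_bd (T := T) k x)
    linarith
  have h3 : Real.log (Zf w T x) ≤ Real.log W + S := by
    have := Real.log_le_log (Zf_pos hw x) h1
    rwa [Real.log_mul hW0.ne' (Real.exp_pos _).ne', Real.log_exp] at this
  have h4 : Real.log W - S ≤ Real.log (Zf w T x) := by
    have := Real.log_le_log (by positivity) h2
    rw [Real.log_mul hW0.ne' (Real.exp_pos _).ne', Real.log_exp] at this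
    linarith
  rw [← hS]
  have h5 : |Real.log (Zf w T x)| ≤ |Real.log W| + S := by
    rw [abs_le]
    constructor
    · linarith [neg_abs_le (Real.log W)]
    · linarith [le_abs_self (Real.log W)]
  nlinarith [abs_nonneg (Real.log W)]

omit [Nonempty ι] in
/-- The dependence on one coordinate. -/
lemma Zf_update (hw : ∀ k, 0 < w k) (i : Fin N) (x : Fin N → ℝ) : ∃ a b : ℝ, 0 ≤ a ∧ 0 ≤ b ∧ ∀ t,
    Zf w T (Function.update x i t) = a + b * Real.exp t ∧
    Zi w T i (Function.update x i t) = b * Real.exp t := by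
  refine ⟨∑ k, if i ∈ T k then 0 else w k * Real.exp (∑ j ∈ T k, x j),
    ∑ k, if i ∈ T k then w k * Real.exp (∑ j ∈ T k \ {i}, x j) else 0, ?_, ?_, fun t => ⟨?_, ?_⟩⟩
  · exact Finset.sum_nonneg fun k _ => by
      split_ifs
      · exact le_rfl
      · exact (mul_pos (hw k) (Real.exp_pos _)).le
  · exact Finset.sum_nonneg fun k _ => by
      split_ifs
      · exact (mul_pos (hw k) (Real.exp_pos _)).le
      · exact le_rfl
  · rw [Finset.sum_mul, ← Finset.sum_add_distrib]
    unfold Zf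
    refine Finset.sum_congr rfl fun k _ => ?_
    by_cases h : i ∈ T k
    · rw [if_pos h, if_pos h, Finset.sum_update_of_mem h, zero_add, Real.exp_add]
      ring
    · rw [if_neg h, if_neg h, Finset.sum_update_of_notMem h]
      ring
  · rw [Finset.sum_mul]
    unfold Zi
    refine Finset.sum_congr rfl fun k _ => ?_
    by_cases h : i ∈ T k
    · rw [if_pos h, if_pos h, Finset.sum_update_of_mem h, Real.exp_add]
      ring
    · rw [if_neg h, if_neg h, zero_mul]

lemma gf_nonneg (hw : ∀ k, 0 < w k) (i : Fin N) (x : Fin N → ℝ) : 0 ≤ gf w T i x :=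
  div_nonneg (Zi_nonneg hw i x) (Zf_pos hw x).le

lemma gf_le (hw : ∀ k, 0 < w k) (i : Fin N) (x : Fin N → ℝ) : gf w T i x ≤ 1 := by
  unfold gf
  rw [div_le_one (Zf_pos hw x)]
  exact Zi_le hw i x

omit [Nonempty ι] in
lemma gf_meas (i : Fin N) : Measurable (gf w T i) := (Zi_meas i).div Zf_meas

/-- Harnack inequality. -/
lemma gf_har (hw : ∀ k, 0 < w k) (i : Fin N) (x : Fin N → ℝ) (t t' : ℝ) :
    gf w T i (Function.update x i t) ≤ (1 + Real.exp (t - t')) * gf w T i (Function.update x i t') := by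
  obtain ⟨a, b, ha, hb, h⟩ := Zf_update (T := T) hw i x
  have p1 := Zf_pos (T := T) hw (Function.update x i t)
  have p2 := Zf_pos (T := T) hw (Function.update x i t')
  unfold gf
  rw [(h t).2, (h t').2]
  rw [(h t).1] at p1 ⊢
  rw [(h t').1] at p2 ⊢
  rw [mul_div_assoc', div_le_div_iff₀ p1 p2]
  have e1 : (1 + Real.exp (t - t')) * (b * Real.exp t') = b * Real.exp t' + b * Real.exp t := by
    rw [Real.exp_sub]
    field_simp
  rw [e1]
  have q1 : 0 ≤ b * Real.exp t := by positivity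
  have q2 : 0 ≤ b * Real.exp t' := by positivity
  nlinarith [mul_nonneg ha q2, mul_nonneg q1 q1, mul_nonneg q1 q2, mul_nonneg ha q1]

/-- Harnack inequality. -/
lemma gf_har' (hw : ∀ k, 0 < w k) (i : Fin N) (x : Fin N → ℝ) (t t' : ℝ) :
    gf w T i (Function.update x i t) ≤
      Real.exp (|t| + |t'|) * gf w T i (Function.update x i t') := by
  obtain ⟨a, b, ha, hb, h⟩ := Zf_update (T := T) hw i x
  have p1 := Zf_pos (T := T) hw (Function.update x i t)
  have p2 := Zf_pos (T := T) hw (Function.update x i t')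
  unfold gf
  rw [(h t).2, (h t').2]
  rw [(h t).1] at p1 ⊢
  rw [(h t').1] at p2 ⊢
  rw [mul_div_assoc', div_le_div_iff₀ p1 p2]
  have e0 : Real.exp t ≤ Real.exp (|t| + |t'|) * Real.exp t' := by
    rw [← Real.exp_add]
    apply Real.exp_le_exp.2
    linarith [le_abs_self t, neg_abs_le t']
  have e1 : 1 ≤ Real.exp (|t| + |t'|) := Real.one_le_exp (by positivity)
  have q1 : 0 ≤ a * b := mul_nonneg ha hb
  have q2 : 0 ≤ b * b * (Real.exp t * Real.exp t') := by positivity
  have r1 := mul_le_mul_of_nonneg_left e0 q1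
  have r2 := mul_le_mul_of_nonneg_right e1 q2
  nlinarith

/-- Convexity. -/
lemma logZf_conv (hw : ∀ k, 0 < w k) (x y : Fin N → ℝ) :
    Real.log (Zf w T x) + ∑ i, gf w T i x * (y i - x i) ≤ Real.log (Zf w T y) := by
  have hx := Zf_pos (T := T) hw x
  have hy := Zf_pos (T := T) hw y
  obtain ⟨p, hp⟩ : ∃ p : ι → ℝ, p = fun k => w k * Real.exp (∑ i ∈ T k, x i) / Zf w T x := ⟨_, rfl⟩
  obtain ⟨d, hd⟩ : ∃ d : ι → ℝ, d = fun k => ∑ i ∈ T k, (y i - x i) := ⟨_, rfl⟩
  have hp0 : ∀ k ∈ Finset.univ, 0 ≤ p k := fun k _ => by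
    rw [hp]
    exact div_nonneg (mul_pos (hw k) (Real.exp_pos _)).le hx.le
  have hp1 : ∑ k, p k = 1 := by
    rw [hp, ← Finset.sum_div]
    exact div_self hx.ne'
  have e1 : ∑ i, gf w T i x * (y i - x i) = ∑ k, p k * d k := by
    have f1 : ∀ i, gf w T i x * (y i - x i) =
        ∑ k, if i ∈ T k then p k * (y i - x i) else 0 := by
      intro i
      unfold gf Zi
      rw [Finset.sum_div, Finset.sum_mul]
      refine Finset.sum_congr rfl fun k _ => ?_
      by_cases h : i ∈ T k
      · rw [if_pos h, if_pos h, hp]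
      · rw [if_neg h, if_neg h, zero_div, zero_mul]
    simp_rw [f1]
    rw [Finset.sum_comm]
    refine Finset.sum_congr rfl fun k _ => ?_
    rw [hd, ← Finset.sum_filter, Finset.mul_sum]
    congr 1
    ext i
    simp
  have hj := convexOn_exp.map_sum_le hp0 hp1 (p := d) (fun k _ => mem_univ _)
  simp only [smul_eq_mul] at hj
  have e2 : ∑ k, p k * Real.exp (d k) = Zf w T y / Zf w T x := by
    rw [hp, hd]
    unfold Zf
    rw [Finset.sum_div]
    refine Finset.sum_congr rfl fun k _ => ?_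
    beta_reduce
    rw [div_mul_eq_mul_div, mul_assoc, ← Real.exp_add, Finset.sum_sub_distrib]
    congr 3
    ring
  rw [e2] at hj
  have h3 := Real.log_le_log (Real.exp_pos _) hj
  rw [Real.log_exp, Real.log_div hy.ne' hx.ne'] at h3
  rw [e1]
  linarith

lemma osc_one (hw : ∀ k, 0 < w k) (i : Fin N) (x : Fin N → ℝ) (s s' : ℝ) :
    Real.log (Zf w T (Function.update x i s)) - Real.log (Zf w T (Function.update x i s')) ≤
      gf w T i (Function.update x i s) * (s - s') := by
  have h := logZf_conv (T := T) hw (Function.update x i s) (Function.update x i s')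
  rw [Finset.sum_eq_single i] at h
  · simp only [Function.update_self] at h
    linarith
  · intro j _ hj
    rw [Function.update_of_ne hj, Function.update_of_ne hj, sub_self, mul_zero]
  · intro h
    exact absurd (Finset.mem_univ _) h

variable {ν : Measure ℝ} [IsProbabilityMeasure ν]

lemma EM_exp (hEM : Pool.Agent.W_7d29a1_h47.EM ν) (c : ℝ) : Integrable (fun t : ℝ => Real.exp (c * t)) ν := by
  refine (hEM |c|).mono' (by fun_prop) (Filter.Eventually.of_forall fun t => ?_)
  rw [Real.norm_eq_abs, Real.abs_exp]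
  apply Real.exp_le_exp.2
  rw [← abs_mul]
  exact le_abs_self _

lemma EM_FM (hEM : Pool.Agent.W_7d29a1_h47.EM ν) : FM ν := by
  refine (hEM 1).mono' (by fun_prop) (Filter.Eventually.of_forall fun t => ?_)
  rw [Real.norm_eq_abs, one_mul]
  linarith [Real.add_one_le_exp |t|]

/-- The constant in the Harnack inequality. -/
def ch (ν : Measure ℝ) (xm : ℝ) : ℝ :=
  ∫ t' in Iic xm, (1 + Real.exp (-t') * ∫ t, Real.exp t ∂ν)⁻¹ ∂ν

lemma ch_pos {xm : ℝ} (hxm : 0 < ν.real (Iic xm)) : 0 < ch ν xm := by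
  have hM : 0 ≤ ∫ t, Real.exp t ∂ν := integral_nonneg fun t => (Real.exp_pos t).le
  have hpos : ∀ t' : ℝ, 0 < (1 + Real.exp (-t') * ∫ t, Real.exp t ∂ν)⁻¹ := fun t' => by positivity
  have hint : Integrable (fun t' : ℝ => (1 + Real.exp (-t') * ∫ t, Real.exp t ∂ν)⁻¹)
      (ν.restrict (Iic xm)) := by
    refine (integrable_const (1 : ℝ)).mono' (by fun_prop) (Filter.Eventually.of_forall fun t => ?_)
    rw [Real.norm_eq_abs, abs_of_pos (hpos t)]
    apply inv_le_one_of_one_le₀
    have : 0 ≤ Real.exp (-t) * ∫ t, Real.exp t ∂ν := by positivity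
    linarith
  unfold ch
  rw [integral_pos_iff_support_of_nonneg (fun t => (hpos t).le) hint]
  have hs : Function.support (fun t' : ℝ => (1 + Real.exp (-t') * ∫ t, Real.exp t ∂ν)⁻¹) = univ := by
    ext t
    simp only [Function.mem_support, mem_univ, iff_true]
    exact (hpos t).ne'
  rw [hs, Measure.restrict_apply_univ]
  rw [Measure.real, ENNReal.toReal_pos_iff] at hxm
  exact hxm.1

lemma gf_int (hw : ∀ k, 0 < w k) (i : Fin N) (x : Fin N → ℝ) :
    Integrable (fun t => gf w T i (Function.update x i t)) ν := by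
  refine (integrable_const (1 : ℝ)).mono' ?_ (Filter.Eventually.of_forall fun t => ?_)
  · exact ((gf_meas i).comp (measurable_update x)).aestronglyMeasurable
  · rw [Real.norm_eq_abs, abs_of_nonneg (gf_nonneg hw i _)]
    exact gf_le hw i _

theorem gf_GD (hEM : Pool.Agent.W_7d29a1_h47.EM ν) (hw : ∀ k, 0 < w k) (xm : ℝ) :
    GD ν xm 1 (ch ν xm) N (gf w T) := by
  refine ⟨gf_meas, gf_nonneg hw, gf_le hw, fun i x => ?_⟩
  obtain ⟨J, hJ⟩ : ∃ J, J = ∫ t, gf w T i (Function.update x i t) ∂ν := ⟨_, rfl⟩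
  have hM : 0 ≤ ∫ t, Real.exp t ∂ν := integral_nonneg fun t => (Real.exp_pos t).le
  have hpos : ∀ t' : ℝ, 0 < 1 + Real.exp (-t') * ∫ t, Real.exp t ∂ν := fun t' => by positivity
  have h1 : ∀ t', J ≤ (1 + Real.exp (-t') * ∫ t, Real.exp t ∂ν) * gf w T i (Function.update x i t') := by
    intro t'
    have e1 : ∀ t, gf w T i (Function.update x i t) ≤
        (1 + Real.exp (-t') * Real.exp t) * gf w T i (Function.update x i t') := by
      intro t
      have := gf_har (T := T) hw i x t t'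
      rwa [show t - t' = -t' + t by ring, Real.exp_add] at this
    have hexp : Integrable (fun t : ℝ => Real.exp t) ν := by
      have := EM_exp hEM 1
      simpa using this
    have hi : Integrable (fun t : ℝ => (1 + Real.exp (-t') * Real.exp t) *
        gf w T i (Function.update x i t')) ν :=
      ((integrable_const (1 : ℝ)).add (hexp.const_mul _)).mul_const _
    rw [hJ]
    refine (integral_mono (gf_int hw i x) hi e1).trans_eq ?_
    rw [integral_mul_const, integral_add (integrable_const _) (hexp.const_mul _), integral_const_mul]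
    simp
  have h2 : ∀ t', (1 + Real.exp (-t') * ∫ t, Real.exp t ∂ν)⁻¹ * J ≤ gf w T i (Function.update x i t') := by
    intro t'
    rw [inv_mul_le_iff₀ (hpos t')]
    exact h1 t'
  have hint : Integrable (fun t' : ℝ => (1 + Real.exp (-t') * ∫ t, Real.exp t ∂ν)⁻¹)
      (ν.restrict (Iic xm)) := by
    refine (integrable_const (1 : ℝ)).mono' (by fun_prop) (Filter.Eventually.of_forall fun t => ?_)
    rw [Real.norm_eq_abs, abs_of_pos (inv_pos.2 (hpos t))]
    apply inv_le_one_of_one_le₀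
    have : 0 ≤ Real.exp (-t) * ∫ t, Real.exp t ∂ν := by positivity
    linarith
  rw [← hJ, ch, ← integral_mul_const]
  exact integral_mono (hint.mul_const J) (gf_int hw i x).integrableOn h2

/-- The constant in the oscillation bound. -/
def ko (ν : Measure ℝ) : ℝ := ∫ t, Real.exp (-|t|) ∂ν

lemma exp_neg_abs_int : Integrable (fun t : ℝ => Real.exp (-|t|)) ν := by
  refine (integrable_const (1 : ℝ)).mono' (by fun_prop) (Filter.Eventually.of_forall fun t => ?_)
  rw [Real.norm_eq_abs, Real.abs_exp]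
  exact Real.exp_le_one_iff.2 (by simp)

lemma ko_pos : 0 < ko ν := by
  unfold ko
  rw [integral_pos_iff_support_of_nonneg (fun t => (Real.exp_pos _).le) exp_neg_abs_int]
  have hs : Function.support (fun t : ℝ => Real.exp (-|t|)) = univ := by
    ext t
    simp only [Function.mem_support, mem_univ, iff_true]
    exact (Real.exp_pos _).ne'
  rw [hs]
  simp

/-- The oscillation function. -/
def ph (ν : Measure ℝ) (t : ℝ) : ℝ := Real.exp (2 * |t|) / √(ko ν)

lemma ph_nonneg (t : ℝ) : 0 ≤ ph ν t := by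
  unfold ph
  positivity

lemma ph_int (hEM : Pool.Agent.W_7d29a1_h47.EM ν) : Integrable (ph ν) ν := (hEM 2).div_const _

lemma ph_int2 (hEM : Pool.Agent.W_7d29a1_h47.EM ν) : Integrable (fun t => ph ν t ^ 2) ν := by
  have e1 : (fun t => ph ν t ^ 2) = fun t => Real.exp (4 * |t|) / √(ko ν) ^ 2 := by
    funext t
    unfold ph
    rw [div_pow, ← Real.exp_nat_mul]
    congr 2
    push_cast
    ring
  rw [e1]
  exact (hEM 4).div_const _

theorem logZf_Osc (hw : ∀ k, 0 < w k) : Osc ν (ph ν) N (gf w T) fun x => Real.log (Zf w T x) := by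
  intro i x s s'
  obtain ⟨J, hJ⟩ : ∃ J, J = ∫ t, gf w T i (Function.update x i t) ∂ν := ⟨_, rfl⟩
  have hk := ko_pos (ν := ν)
  have hJ0 : 0 ≤ J := by rw [hJ]; exact integral_nonneg fun t => gf_nonneg hw i _
  have h1 : ∀ r, gf w T i (Function.update x i r) ≤ Real.exp |r| / ko ν * J := by
    intro r
    have e1 : ∀ t, gf w T i (Function.update x i r) * Real.exp (-|t|) ≤
        Real.exp |r| * gf w T i (Function.update x i t) := by
      intro t
      have h2 := gf_har' (T := T) hw i x r t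
      rw [Real.exp_add] at h2
      have h3 := mul_le_mul_of_nonneg_right h2 (Real.exp_pos (-|t|)).le
      have h4 : Real.exp |t| * Real.exp (-|t|) = 1 := by rw [← Real.exp_add]; simp
      calc gf w T i (Function.update x i r) * Real.exp (-|t|) ≤
          Real.exp |r| * Real.exp |t| * gf w T i (Function.update x i t) * Real.exp (-|t|) := h3
        _ = Real.exp |r| * gf w T i (Function.update x i t) * (Real.exp |t| * Real.exp (-|t|)) := by ring
        _ = Real.exp |r| * gf w T i (Function.update x i t) := by rw [h4, mul_one]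
    have h2 := integral_mono ((exp_neg_abs_int (ν := ν)).const_mul (gf w T i (Function.update x i r)))
      ((gf_int (ν := ν) (T := T) hw i x).const_mul (Real.exp |r|)) e1
    rw [integral_const_mul, integral_const_mul, ← hJ] at h2
    rw [div_mul_eq_mul_div, le_div_iff₀ hk]
    exact h2
  have h2 : ∀ r r', Real.log (Zf w T (Function.update x i r)) -
      Real.log (Zf w T (Function.update x i r')) ≤ ph ν r * ph ν r' * J := by
    intro r r'
    refine (osc_one hw i x r r').trans ?_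
    have f1 : gf w T i (Function.update x i r) * (r - r') ≤
        gf w T i (Function.update x i r) * (|r| + |r'|) :=
      mul_le_mul_of_nonneg_left (by linarith [le_abs_self r, neg_abs_le r']) (gf_nonneg hw i _)
    have f2 : gf w T i (Function.update x i r) * (|r| + |r'|) ≤
        Real.exp |r| / ko ν * J * (|r| + |r'|) :=
      mul_le_mul_of_nonneg_right (h1 r) (by positivity)
    have f3 : Real.exp |r| * (|r| + |r'|) ≤ Real.exp (2 * |r|) * Real.exp (2 * |r'|) := by
      have g1 : |r| + |r'| ≤ Real.exp (|r| + |r'|) := by linarith [Real.add_one_le_exp (|r| + |r'|)]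
      calc Real.exp |r| * (|r| + |r'|) ≤ Real.exp |r| * Real.exp (|r| + |r'|) :=
            mul_le_mul_of_nonneg_left g1 (Real.exp_pos _).le
        _ = Real.exp (|r| + (|r| + |r'|)) := by rw [← Real.exp_add]
        _ ≤ Real.exp (2 * |r| + 2 * |r'|) := Real.exp_le_exp.2 (by linarith [abs_nonneg r'])
        _ = Real.exp (2 * |r|) * Real.exp (2 * |r'|) := Real.exp_add _ _
    have f4 : ph ν r * ph ν r' * J = Real.exp (2 * |r|) * Real.exp (2 * |r'|) / ko ν * J := by
      unfold ph
      rw [div_mul_div_comm, Real.mul_self_sqrt hk.le]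
    rw [f4]
    refine f1.trans (f2.trans ?_)
    have f5 : Real.exp |r| / ko ν * J * (|r| + |r'|) = Real.exp |r| * (|r| + |r'|) * (J / ko ν) := by ring
    have f6 : Real.exp (2 * |r|) * Real.exp (2 * |r'|) / ko ν * J =
        Real.exp (2 * |r|) * Real.exp (2 * |r'|) * (J / ko ν) := by ring
    rw [f5, f6]
    exact mul_le_mul_of_nonneg_right f3 (by positivity)
  rw [← hJ, abs_le]
  constructor
  · have := h2 s' s
    linarith [mul_comm (ph ν s) (ph ν s')]
  · exact h2 s s'

/-- LEMMA LA for partition functions. -/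
theorem luck_Zf (hEM : Pool.Agent.W_7d29a1_h47.EM ν) (hnd : Pool.Agent.W_7d29a1_h47.Nondeg ν) {δ : ℝ}
    (hδ : 0 < δ) (hδ1 : δ ≤ 1) {K : ℝ} (hK : 0 ≤ K) :
    ∃ B U0 : ℝ, 1 < B ∧ 0 < U0 ∧ ∀ (N : ℕ) (ι : Type) [Fintype ι] [Nonempty ι] (w : ι → ℝ)
      (T : ι → Finset (Fin N)) (c : ℝ), (∀ k, 0 < w k) → ∀ F : (Fin N → ℝ) → ℝ,
      (∀ x, F x = c + Real.log (Zf w T x)) → ∀ U : ℝ, U0 ≤ U →
      δ * U ^ 2 ≤ ∫ x, min ((F x - ∫ y, F y ∂(PN ν N)) ^ 2) (U ^ 2) ∂(PN ν N) →
      ∃ ψ : ℝ → ℝ, Measurable ψ ∧ (∀ t, 0 ≤ ψ t) ∧ (∀ t, ψ t ≤ B) ∧ ∫ x, ψ (F x) ∂(PN ν N) = 1 ∧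
        ∫ x, F x ∂(PN ν N) + K * U ≤ ∫ x, ψ (F x) * F x ∂(PN ν N) := by
  obtain ⟨xm, xp, hx, h1, h2⟩ := Pool.Agent.W_7d29a1_h47.exists_gap hnd
  obtain ⟨B, U0, hB, hU0, h⟩ := luck_amp (ν := ν) (EM_FM hEM) hx h2 zero_le_one (ch_pos h1)
    (ph_nonneg (ν := ν)) (ph_int hEM) (ph_int2 hEM) hδ hδ1 hK
  refine ⟨B, U0, hB, hU0, ?_⟩
  intro N ι _ _ w T c hw F hF U hU hfl
  have hFe : F = fun x => c + Real.log (Zf w T x) := funext hF
  refine h N F (gf w T) ?_ (gf_GD hEM hw xm) ?_ ?_ U hU hfl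
  · rw [hFe]
    exact (LG.const N c).add (logZf_LG hw)
  · intro i x s s'
    rw [hF, hF, add_sub_add_left_eq_sub]
    exact logZf_Osc hw i x s s'
  · intro x y
    rw [hF, hF]
    have := logZf_conv (T := T) hw x y
    linarith

end

end Pool.Agent.W_7d29a1_h42
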