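import Pool.Agent.W_7d29a1_h42.LuckRec

/-!
The induction which gives luck from energy.
-/

namespace Pool.Agent.W_7d29a1_h42

open MeasureTheory Set

noncomputable section

variable {ν : Measure ℝ} [IsProbabilityMeasure ν] {M : ℝ}

/-- The trivial bound. -/
lemma key_triv (hν : FM ν) {N : ℕ} {Go Fp : (Fin N → ℝ) → ℝ} (hGo : LG N Go) (hFp : LG N Fp)
    (h : ∀ x, Go x ≤ Fp x) {B : ℝ} (hB : 1 ≤ B) (s : ℝ) :
    ∫ x, Go x ∂(PN ν N) ≤ s + B * ∫ x, max (Fp x - s) 0 ∂(PN ν N) := by
  have h1 : ∫ x, Go x ∂(PN ν N) ≤ ∫ x, (s + B * max (Fp x - s) 0) ∂(PN ν N) := by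
    refine integral_mono (hGo.integrable hν) ((integrable_const s).add
      (((hFp.pos s).integrable hν).const_mul B)) fun x => ?_
    have h2 : 0 ≤ max (Fp x - s) 0 := le_max_right _ _
    have h3 : Fp x - s ≤ max (Fp x - s) 0 := le_max_left _ _
    have h4 := h x
    show Go x ≤ s + B * max (Fp x - s) 0
    nlinarith
  rw [integral_add (integrable_const s) (((hFp.pos s).integrable hν).const_mul B),
    integral_const_mul] at h1
  simpa using h1

/-- The relative density of one step. -/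
def rr (xm xp u ρ : ℝ) (y : ℝ) : ℝ :=
  (1 - u * (Iic xm).indicator (fun _ => (1 : ℝ)) y) + ρ * u * (Ici xp).indicator (fun _ => (1 : ℝ)) y

lemma rr_lo {xm xp u ρ : ℝ} (hx : xm < xp) {y : ℝ} (hy : y ≤ xm) : rr xm xp u ρ y = 1 - u := by
  have h : ¬ xp ≤ y := by
    intro h
    linarith
  simp [rr, hy, h]

lemma rr_hi {xm xp u ρ : ℝ} (hx : xm < xp) {y : ℝ} (hy : xp ≤ y) : rr xm xp u ρ y = 1 + ρ * u := by
  have h : ¬ y ≤ xm := by
    intro h
    linarith
  simp [rr, hy, h]

lemma rr_mid {xm xp u ρ : ℝ} {y : ℝ} (hy : ¬ y ≤ xm) (hy' : ¬ xp ≤ y) : rr xm xp u ρ y = 1 := by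
  simp [rr, hy, hy']

lemma rr_cases {xm xp u ρ : ℝ} (hx : xm < xp) (y : ℝ) :
    rr xm xp u ρ y = 1 - u ∨ rr xm xp u ρ y = 1 + ρ * u ∨ rr xm xp u ρ y = 1 := by
  by_cases h1 : y ≤ xm
  · exact Or.inl (rr_lo hx h1)
  · by_cases h2 : xp ≤ y
    · exact Or.inr (Or.inl (rr_hi hx h2))
    · exact Or.inr (Or.inr (rr_mid h1 h2))

lemma rr_meas (xm xp u ρ : ℝ) : Measurable (rr xm xp u ρ) := by
  unfold rr
  exact (measurable_const.sub ((measurable_const.indicator measurableSet_Iic).const_mul u)).add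
    ((measurable_const.indicator measurableSet_Ici).const_mul (ρ * u))

lemma ind_mul (s : Set ℝ) (φ : ℝ → ℝ) (y : ℝ) :
    s.indicator (fun _ => (1 : ℝ)) y * φ y = s.indicator φ y := by
  by_cases h : y ∈ s <;> simp [h]

/-- The main one step inequality. -/
lemma one_step {xm xp u ρ m q c2 a cc P : ℝ} (hx : xm < xp) (hm : m = ν.real (Iic xm))
    (hq : q = ν.real (Ici xp)) (hq0 : 0 < q) (hρ : ρ = m / q) (hu0 : 0 ≤ u) (hu1 : u ≤ 1 / 2)
    {G γ S k : ℝ → ℝ} (hG : Integrable G ν) (hγ : Integrable γ ν) (hS : Integrable S ν)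
    (hk : Integrable k ν) (hγ0 : ∀ x, 0 ≤ γ x)
    (h : ∀ x y, G x + γ x * (y - x) + cc * (S x - P * rr xm xp u ρ y) ≤ k y)
    (hh : c2 * a ≤ ∫ x in Iic xm, γ x ∂ν) :
    ∫ x, (G x + cc * S x) ∂ν + u * (xp - xm) * (c2 * a) - cc * P * (1 + u ^ 2 * (m * (1 + ρ))) ≤
      ∫ y, rr xm xp u ρ y * k y ∂ν := by
  have hφ : Integrable (fun x => G x + cc * S x) ν := hG.add (hS.const_mul cc)
  have hm0 : 0 ≤ m := by rw [hm]; exact measureReal_nonneg
  have hρ0 : 0 ≤ ρ := by rw [hρ]; positivity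
  have hρq : ρ * q = m := by rw [hρ]; field_simp
  -- split the right-hand side
  have e1 : ∀ y, rr xm xp u ρ y * k y =
      (k y - u * (Iic xm).indicator k y) + ρ * u * (Ici xp).indicator k y := by
    intro y
    rw [← ind_mul (Iic xm) k y, ← ind_mul (Ici xp) k y]
    unfold rr
    ring
  have hkI : Integrable ((Iic xm).indicator k) ν := hk.indicator measurableSet_Iic
  have hkJ : Integrable ((Ici xp).indicator k) ν := hk.indicator measurableSet_Ici
  have e2 : ∫ y, rr xm xp u ρ y * k y ∂ν =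
      ∫ y, (k y - u * (Iic xm).indicator k y) ∂ν + ρ * u * ∫ y in Ici xp, k y ∂ν := by
    have hA3 : Integrable (fun y => k y - u * (Iic xm).indicator k y) ν := hk.sub (hkI.const_mul u)
    simp_rw [e1]
    rw [integral_add hA3 (hkJ.const_mul (ρ * u)), integral_const_mul,
      integral_indicator measurableSet_Ici]
  -- the first part
  have hI1 : Integrable ((Iic xm).indicator fun _ => (1 : ℝ)) ν :=
    (integrable_const (1 : ℝ)).indicator measurableSet_Iic
  have hJ1 : Integrable ((Ici xp).indicator fun _ => (1 : ℝ)) ν :=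
    (integrable_const (1 : ℝ)).indicator measurableSet_Ici
  have hφI : Integrable ((Iic xm).indicator fun x => G x + cc * S x) ν := hφ.indicator measurableSet_Iic
  have p1 : ∀ y, ((G y + cc * S y) - u * (Iic xm).indicator (fun x => G x + cc * S x) y) -
      cc * P * (1 + (u ^ 2 - 2 * u) * (Iic xm).indicator (fun _ => (1 : ℝ)) y +
        ρ * u * (Ici xp).indicator (fun _ => (1 : ℝ)) y) ≤ k y - u * (Iic xm).indicator k y := by
    intro y
    have h1 := h y y
    rw [sub_self, mul_zero, add_zero] at h1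
    by_cases hy : y ≤ xm
    · have hy' : ¬ xp ≤ y := by
        intro h
        linarith
      rw [rr_lo hx hy] at h1
      simp only [mem_Iic, hy, indicator_of_mem, mem_Ici, hy', not_false_eq_true, indicator_of_notMem]
      have h2 := mul_le_mul_of_nonneg_left h1 (show (0 : ℝ) ≤ 1 - u by linarith)
      nlinarith
    · by_cases hy' : xp ≤ y
      · rw [rr_hi hx hy'] at h1
        simp only [mem_Iic, hy, indicator_of_mem, mem_Ici, hy', not_false_eq_true, indicator_of_notMem]
        nlinarith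
      · rw [rr_mid hy hy'] at h1
        simp only [mem_Iic, hy, mem_Ici, hy', not_false_eq_true, indicator_of_notMem]
        nlinarith
  have i1 : ∫ y, (Iic xm).indicator (fun _ => (1 : ℝ)) y ∂ν = m := by
    rw [integral_indicator measurableSet_Iic, hm]
    simp
  have j1 : ∫ y, (Ici xp).indicator (fun _ => (1 : ℝ)) y ∂ν = q := by
    rw [integral_indicator measurableSet_Ici, hq]
    simp
  have hA1 : Integrable (fun y => (G y + cc * S y) - u * (Iic xm).indicator (fun x => G x + cc * S x) y) ν :=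
    hφ.sub (hφI.const_mul u)
  have hA2 : Integrable (fun y => 1 + (u ^ 2 - 2 * u) * (Iic xm).indicator (fun _ => (1 : ℝ)) y +
        ρ * u * (Ici xp).indicator (fun _ => (1 : ℝ)) y) ν :=
    ((integrable_const (1 : ℝ)).add (hI1.const_mul _)).add (hJ1.const_mul _)
  have hA4 : Integrable (fun y => 1 + (u ^ 2 - 2 * u) * (Iic xm).indicator (fun _ => (1 : ℝ)) y) ν :=
    (integrable_const (1 : ℝ)).add (hI1.const_mul _)
  have q1 : ∫ y, (((G y + cc * S y) - u * (Iic xm).indicator (fun x => G x + cc * S x) y) -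
      cc * P * (1 + (u ^ 2 - 2 * u) * (Iic xm).indicator (fun _ => (1 : ℝ)) y +
        ρ * u * (Ici xp).indicator (fun _ => (1 : ℝ)) y)) ∂ν ≤
      ∫ y, (k y - u * (Iic xm).indicator k y) ∂ν :=
    integral_mono (hA1.sub (hA2.const_mul (cc * P))) (hk.sub (hkI.const_mul u)) p1
  have one : ∫ _y : ℝ, (1 : ℝ) ∂ν = 1 := by simp
  have q1' : ∫ y, (1 + (u ^ 2 - 2 * u) * (Iic xm).indicator (fun _ => (1 : ℝ)) y +
        ρ * u * (Ici xp).indicator (fun _ => (1 : ℝ)) y) ∂ν = 1 + (u ^ 2 - 2 * u) * m + ρ * u * q := by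
    rw [integral_add hA4 (hJ1.const_mul _), integral_const_mul, j1,
      integral_add (integrable_const (1 : ℝ)) (hI1.const_mul _), integral_const_mul, i1, one]
  rw [integral_sub hA1 (hA2.const_mul (cc * P)), integral_const_mul,
    integral_sub hφ (hφI.const_mul u), integral_const_mul, integral_indicator measurableSet_Iic, q1'] at q1
  -- the second part
  have p2 : ∀ x ≤ xm, q * ((G x + cc * S x) + γ x * (xp - xm) - cc * P * (1 + ρ * u)) ≤
      ∫ y in Ici xp, k y ∂ν := by
    intro x hxx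
    have h1 : ∀ y ∈ Ici xp, ((G x + cc * S x) + γ x * (xp - xm) - cc * P * (1 + ρ * u)) ≤ k y := by
      intro y hy
      have h2 := h x y
      rw [rr_hi hx hy] at h2
      have h3 : γ x * (xp - xm) ≤ γ x * (y - x) :=
        mul_le_mul_of_nonneg_left (by linarith [mem_Ici.1 hy]) (hγ0 x)
      nlinarith
    have h2 := setIntegral_mono_on (μ := ν)
      (integrable_const ((G x + cc * S x) + γ x * (xp - xm) - cc * P * (1 + ρ * u))).integrableOn
      hk.integrableOn measurableSet_Ici h1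
    rw [setIntegral_const, ← hq, smul_eq_mul] at h2
    exact h2
  have hΦ : Integrable (fun x => (G x + cc * S x) + γ x * (xp - xm) - cc * P * (1 + ρ * u)) ν :=
    (hφ.add (hγ.mul_const _)).sub (integrable_const _)
  have q2 := setIntegral_mono_on (μ := ν) (hΦ.const_mul q).integrableOn
    (integrable_const (∫ y in Ici xp, k y ∂ν)).integrableOn measurableSet_Iic p2
  have hΦ1 : Integrable (fun x => (G x + cc * S x) + γ x * (xp - xm)) ν := hφ.add (hγ.mul_const _)
  have q2' : ∫ x in Iic xm, ((G x + cc * S x) + γ x * (xp - xm) - cc * P * (1 + ρ * u)) ∂ν =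
      ∫ x in Iic xm, (G x + cc * S x) ∂ν + (∫ x in Iic xm, γ x ∂ν) * (xp - xm) -
        m * (cc * P * (1 + ρ * u)) := by
    rw [integral_sub hΦ1.integrableOn (integrable_const _).integrableOn,
      integral_add hφ.integrableOn (hγ.mul_const _).integrableOn, integral_mul_const, setIntegral_const,
      ← hm, smul_eq_mul]
  rw [setIntegral_const, ← hm, smul_eq_mul, integral_const_mul, q2'] at q2
  have q3 : u * (∫ x in Iic xm, (G x + cc * S x) ∂ν + (∫ x in Iic xm, γ x ∂ν) * (xp - xm) -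
      m * (cc * P * (1 + ρ * u))) ≤ ρ * u * ∫ y in Ici xp, k y ∂ν := by
    have h1 : ρ * u * ∫ y in Ici xp, k y ∂ν = (u / q) * (m * ∫ y in Ici xp, k y ∂ν) := by
      rw [hρ]
      field_simp
    rw [h1]
    have h2 := mul_le_mul_of_nonneg_left q2 (show 0 ≤ u / q by positivity)
    refine le_trans (le_of_eq ?_) h2
    field_simp
  have q4 : u * (xp - xm) * (c2 * a) ≤ u * (xp - xm) * ∫ x in Iic xm, γ x ∂ν :=
    mul_le_mul_of_nonneg_left hh (mul_nonneg hu0 (by linarith))
  rw [e2]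
  have e3 : ∫ x, (G x + cc * S x) ∂ν + u * (xp - xm) * (c2 * a) - cc * P * (1 + u ^ 2 * (m * (1 + ρ))) =
      (∫ x, (G x + cc * S x) ∂ν - u * ∫ x in Iic xm, (G x + cc * S x) ∂ν -
        cc * P * (1 + (u ^ 2 - 2 * u) * m + ρ * u * q)) +
      (u * (∫ x in Iic xm, (G x + cc * S x) ∂ν - m * (cc * P * (1 + ρ * u))) +
        u * (xp - xm) * (c2 * a)) := by
    have : ρ * u * q = u * m := by rw [← hρq]; ring
    rw [this]
    ring
  rw [e3]
  have e4 : u * (∫ x in Iic xm, (G x + cc * S x) ∂ν + (∫ x in Iic xm, γ x ∂ν) * (xp - xm) -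
      m * (cc * P * (1 + ρ * u))) = u * (∫ x in Iic xm, (G x + cc * S x) ∂ν - m * (cc * P * (1 + ρ * u))) +
      u * (xp - xm) * ∫ x in Iic xm, γ x ∂ν := by ring
  rw [e4] at q3
  linarith

end

end Pool.Agent.W_7d29a1_h42
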