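import Pool.Agent.W_7d29a1_h42.LuckBase

/-!
The stopped energy `IS` and the probability `IT` of exceeding the level `M`, defined by recursion along
the first coordinate.
-/

namespace Pool.Agent.W_7d29a1_h42

open MeasureTheory Set

noncomputable section

/-- Sections of a family of functions. -/
def sg {N : ℕ} (g : Fin (N + 1) → (Fin (N + 1) → ℝ) → ℝ) (x : ℝ) : Fin N → (Fin N → ℝ) → ℝ :=
  fun i z => g i.succ (cn x z)

/-- The properties of the gradient which are used: `0 ≤ g i ≤ β`, and the part of the integral over the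
`i`-th coordinate below `xm` is not too small. -/
structure GD (ν : Measure ℝ) (xm β c2 : ℝ) (N : ℕ) (g : Fin N → (Fin N → ℝ) → ℝ) : Prop where
  meas : ∀ i, Measurable (g i)
  nonneg : ∀ i x, 0 ≤ g i x
  le : ∀ i x, g i x ≤ β
  har : ∀ i x, c2 * ∫ t, g i (Function.update x i t) ∂ν ≤ ∫ t in Iic xm, g i (Function.update x i t) ∂ν

lemma GD.sec {ν : Measure ℝ} {xm β c2 : ℝ} {N : ℕ} {g : Fin (N + 1) → (Fin (N + 1) → ℝ) → ℝ}
    (h : GD ν xm β c2 (N + 1) g) (x : ℝ) : GD ν xm β c2 N (sg g x) := by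
  refine ⟨fun i => (h.meas i.succ).comp (measurable_cn_right x), fun i z => h.nonneg _ _,
    fun i z => h.le _ _, fun i z => ?_⟩
  have := h.har i.succ (cn x z)
  simp only [sg, cn_update]
  exact this

/-- The mean of the first derivative. -/
def am (ν : Measure ℝ) {N : ℕ} (g : Fin (N + 1) → (Fin (N + 1) → ℝ) → ℝ) : ℝ :=
  ∫ x, g 0 x ∂(PN ν (N + 1))

/-- The stopped energy. -/
def IS (ν : Measure ℝ) (M : ℝ) : (N : ℕ) → (Fin N → (Fin N → ℝ) → ℝ) → ℝ → ℝ
  | 0, _, _ => 0
  | N + 1, g, A =>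
    if A + am ν g ^ 2 ≤ M then am ν g ^ 2 + ∫ x, IS ν M N (sg g x) (A + am ν g ^ 2) ∂ν else 0

/-- The probability that the energy exceeds `M`. -/
def IT (ν : Measure ℝ) (M : ℝ) : (N : ℕ) → (Fin N → (Fin N → ℝ) → ℝ) → ℝ → ℝ
  | 0, _, _ => 0
  | N + 1, g, A =>
    if A + am ν g ^ 2 ≤ M then ∫ x, IT ν M N (sg g x) (A + am ν g ^ 2) ∂ν else 1

variable {ν : Measure ℝ} [IsProbabilityMeasure ν] {M : ℝ}

lemma am_meas {N : ℕ} {X : Type} [MeasurableSpace X] (G : X → Fin (N + 1) → (Fin (N + 1) → ℝ) → ℝ)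
    (hG : ∀ i, Measurable fun p : X × (Fin (N + 1) → ℝ) => G p.1 i p.2) :
    Measurable fun ξ => am ν (G ξ) := by
  have h1 : StronglyMeasurable fun p : X × (Fin (N + 1) → ℝ) => G p.1 0 p.2 :=
    (hG 0).stronglyMeasurable
  exact h1.integral_prod_right'.measurable

lemma sg_meas {N : ℕ} {X : Type} [MeasurableSpace X] (G : X → Fin (N + 1) → (Fin (N + 1) → ℝ) → ℝ)
    (hG : ∀ i, Measurable fun p : X × (Fin (N + 1) → ℝ) => G p.1 i p.2) (i : Fin N) :
    Measurable fun p : (X × ℝ) × (Fin N → ℝ) => sg (G p.1.1) p.1.2 i p.2 := by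
  have h : Measurable fun p : (X × ℝ) × (Fin N → ℝ) => (p.1.1, cn p.1.2 p.2) :=
    measurable_fst.fst.prodMk (measurable_cn.comp (measurable_fst.snd.prodMk measurable_snd))
  exact (hG i.succ).comp h

lemma IS_meas (N : ℕ) : ∀ {X : Type} [MeasurableSpace X] (G : X → Fin N → (Fin N → ℝ) → ℝ) (A : X → ℝ),
    (∀ i, Measurable fun p : X × (Fin N → ℝ) => G p.1 i p.2) → Measurable A →
    Measurable fun ξ => IS ν M N (G ξ) (A ξ) := by
  induction N with
  | zero =>
    intro X _ G A hG hA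
    simp only [IS]
    exact measurable_const
  | succ N ih =>
    intro X _ G A hG hA
    have ha := am_meas (ν := ν) G hG
    have h2 : Measurable fun p : X × ℝ => IS ν M N (sg (G p.1) p.2) (A p.1 + am ν (G p.1) ^ 2) :=
      ih (fun p : X × ℝ => sg (G p.1) p.2) (fun p => A p.1 + am ν (G p.1) ^ 2) (sg_meas G hG)
        ((hA.add (ha.pow_const 2)).comp measurable_fst)
    have h3 : Measurable fun ξ => ∫ x, IS ν M N (sg (G ξ) x) (A ξ + am ν (G ξ) ^ 2) ∂ν :=
      h2.stronglyMeasurable.integral_prod_right'.measurable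
    simp only [IS]
    exact Measurable.ite (measurableSet_le (hA.add (ha.pow_const 2)) measurable_const)
      ((ha.pow_const 2).add h3) measurable_const

lemma IT_meas (N : ℕ) : ∀ {X : Type} [MeasurableSpace X] (G : X → Fin N → (Fin N → ℝ) → ℝ) (A : X → ℝ),
    (∀ i, Measurable fun p : X × (Fin N → ℝ) => G p.1 i p.2) → Measurable A →
    Measurable fun ξ => IT ν M N (G ξ) (A ξ) := by
  induction N with
  | zero =>
    intro X _ G A hG hA
    simp only [IT]
    exact measurable_const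
  | succ N ih =>
    intro X _ G A hG hA
    have ha := am_meas (ν := ν) G hG
    have h2 : Measurable fun p : X × ℝ => IT ν M N (sg (G p.1) p.2) (A p.1 + am ν (G p.1) ^ 2) :=
      ih (fun p : X × ℝ => sg (G p.1) p.2) (fun p => A p.1 + am ν (G p.1) ^ 2) (sg_meas G hG)
        ((hA.add (ha.pow_const 2)).comp measurable_fst)
    have h3 : Measurable fun ξ => ∫ x, IT ν M N (sg (G ξ) x) (A ξ + am ν (G ξ) ^ 2) ∂ν :=
      h2.stronglyMeasurable.integral_prod_right'.measurable
    simp only [IT]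
    exact Measurable.ite (measurableSet_le (hA.add (ha.pow_const 2)) measurable_const) h3
      measurable_const

lemma IS_sec_meas {N : ℕ} {g : Fin (N + 1) → (Fin (N + 1) → ℝ) → ℝ} (hg : ∀ i, Measurable (g i)) (A : ℝ) :
    Measurable fun x => IS ν M N (sg g x) A := by
  refine IS_meas N (fun x => sg g x) (fun _ => A) (fun i => ?_) measurable_const
  exact (hg i.succ).comp measurable_cn

lemma IT_sec_meas {N : ℕ} {g : Fin (N + 1) → (Fin (N + 1) → ℝ) → ℝ} (hg : ∀ i, Measurable (g i)) (A : ℝ) :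
    Measurable fun x => IT ν M N (sg g x) A := by
  refine IT_meas N (fun x => sg g x) (fun _ => A) (fun i => ?_) measurable_const
  exact (hg i.succ).comp measurable_cn

omit [IsProbabilityMeasure ν] in
lemma IS_nonneg (N : ℕ) : ∀ (g : Fin N → (Fin N → ℝ) → ℝ) (A : ℝ), 0 ≤ IS ν M N g A := by
  induction N with
  | zero => intro g A; simp [IS]
  | succ N ih =>
    intro g A
    simp only [IS]
    split_ifs
    · exact add_nonneg (sq_nonneg _) (integral_nonneg fun x => ih _ _)
    · exact le_rfl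

omit [IsProbabilityMeasure ν] in
lemma IT_nonneg (N : ℕ) : ∀ (g : Fin N → (Fin N → ℝ) → ℝ) (A : ℝ), 0 ≤ IT ν M N g A := by
  induction N with
  | zero => intro g A; simp [IT]
  | succ N ih =>
    intro g A
    simp only [IT]
    split_ifs
    · exact integral_nonneg fun x => ih _ _
    · exact zero_le_one

lemma IT_le (N : ℕ) : ∀ (g : Fin N → (Fin N → ℝ) → ℝ) (A : ℝ), (∀ i, Measurable (g i)) →
    IT ν M N g A ≤ 1 := by
  induction N with
  | zero => intro g A _; simp [IT]
  | succ N ih =>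
    intro g A hg
    simp only [IT]
    split_ifs
    · have hb : ∀ x, IT ν M N (sg g x) (A + am ν g ^ 2) ≤ 1 := fun x =>
        ih _ _ fun i => (hg i.succ).comp (measurable_cn_right x)
      calc ∫ x, IT ν M N (sg g x) (A + am ν g ^ 2) ∂ν ≤ ∫ _x, (1 : ℝ) ∂ν :=
            integral_mono_of_nonneg (Filter.Eventually.of_forall fun x => IT_nonneg N _ _)
              (integrable_const _) (Filter.Eventually.of_forall hb)
        _ = 1 := by simp
    · exact le_rfl

lemma IS_le (N : ℕ) : ∀ (g : Fin N → (Fin N → ℝ) → ℝ) (A : ℝ), (∀ i, Measurable (g i)) → A ≤ M →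
    IS ν M N g A ≤ M - A := by
  induction N with
  | zero =>
    intro g A _ h
    simp only [IS]
    linarith
  | succ N ih =>
    intro g A hg h
    simp only [IS]
    split_ifs with h1
    · have hb : ∀ x, IS ν M N (sg g x) (A + am ν g ^ 2) ≤ M - (A + am ν g ^ 2) := fun x =>
        ih _ _ (fun i => (hg i.succ).comp (measurable_cn_right x)) h1
      have : ∫ x, IS ν M N (sg g x) (A + am ν g ^ 2) ∂ν ≤ M - (A + am ν g ^ 2) := by
        calc ∫ x, IS ν M N (sg g x) (A + am ν g ^ 2) ∂ν ≤ ∫ _x, (M - (A + am ν g ^ 2)) ∂ν :=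
              integral_mono_of_nonneg (Filter.Eventually.of_forall fun x => IS_nonneg N _ _)
                (integrable_const _) (Filter.Eventually.of_forall hb)
          _ = M - (A + am ν g ^ 2) := by simp
      linarith
    · linarith

lemma IS_sec_int {N : ℕ} {g : Fin (N + 1) → (Fin (N + 1) → ℝ) → ℝ} (hg : ∀ i, Measurable (g i)) {A : ℝ}
    (hA : A ≤ M) : Integrable (fun x => IS ν M N (sg g x) A) ν := by
  refine (integrable_const (M - A)).mono' (IS_sec_meas hg A).aestronglyMeasurable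
    (Filter.Eventually.of_forall fun x => ?_)
  rw [Real.norm_eq_abs, abs_of_nonneg (IS_nonneg N _ _)]
  exact IS_le N _ _ (fun i => (hg i.succ).comp (measurable_cn_right x)) hA

lemma IT_sec_int {N : ℕ} {g : Fin (N + 1) → (Fin (N + 1) → ℝ) → ℝ} (hg : ∀ i, Measurable (g i)) (A : ℝ) :
    Integrable (fun x => IT ν M N (sg g x) A) ν := by
  refine (integrable_const (1 : ℝ)).mono' (IT_sec_meas hg A).aestronglyMeasurable
    (Filter.Eventually.of_forall fun x => ?_)
  rw [Real.norm_eq_abs, abs_of_nonneg (IT_nonneg N _ _)]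
  exact IT_le N _ _ (fun i => (hg i.succ).comp (measurable_cn_right x))

lemma GD.int {xm β c2 : ℝ} {N : ℕ} {g : Fin N → (Fin N → ℝ) → ℝ} (h : GD ν xm β c2 N g) (i : Fin N) :
    Integrable (g i) (PN ν N) := by
  refine (integrable_const β).mono' (h.meas i).aestronglyMeasurable
    (Filter.Eventually.of_forall fun x => ?_)
  rw [Real.norm_eq_abs, abs_of_nonneg (h.nonneg i x)]
  exact h.le i x

lemma am_nonneg {xm β c2 : ℝ} {N : ℕ} {g : Fin (N + 1) → (Fin (N + 1) → ℝ) → ℝ}
    (h : GD ν xm β c2 (N + 1) g) : 0 ≤ am ν g := integral_nonneg fun x => h.nonneg 0 x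

lemma am_le {xm β c2 : ℝ} {N : ℕ} {g : Fin (N + 1) → (Fin (N + 1) → ℝ) → ℝ}
    (h : GD ν xm β c2 (N + 1) g) : am ν g ≤ β := by
  calc am ν g ≤ ∫ _x, β ∂(PN ν (N + 1)) := integral_mono (h.int 0) (integrable_const _) (h.le 0)
    _ = β := by simp

/-- If the energy exceeds `M` then the stopped energy is at least `M - β ^ 2`. -/
lemma IS_ge {xm β c2 : ℝ} (N : ℕ) : ∀ (g : Fin N → (Fin N → ℝ) → ℝ) (A : ℝ), GD ν xm β c2 N g → A ≤ M →
    (M - A - β ^ 2) * IT ν M N g A ≤ IS ν M N g A := by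
  induction N with
  | zero => intro g A _ _; simp [IS, IT]
  | succ N ih =>
    intro g A hg hA
    have ha0 := am_nonneg hg
    have ha1 := am_le hg
    have ha2 : am ν g ^ 2 ≤ β ^ 2 := pow_le_pow_left₀ ha0 ha1 2
    simp only [IS, IT]
    split_ifs with h1
    · have h2 : ∀ x, (M - (A + am ν g ^ 2) - β ^ 2) * IT ν M N (sg g x) (A + am ν g ^ 2) ≤
          IS ν M N (sg g x) (A + am ν g ^ 2) := fun x => ih _ _ (hg.sec x) h1
      have h3 := integral_mono ((IT_sec_int (M := M) hg.meas (A + am ν g ^ 2)).const_mul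
        (M - (A + am ν g ^ 2) - β ^ 2)) (IS_sec_int hg.meas h1) h2
      rw [integral_const_mul] at h3
      have h4 : ∫ x, IT ν M N (sg g x) (A + am ν g ^ 2) ∂ν ≤ 1 := by
        calc ∫ x, IT ν M N (sg g x) (A + am ν g ^ 2) ∂ν ≤ ∫ _x, (1 : ℝ) ∂ν :=
              integral_mono (IT_sec_int hg.meas _) (integrable_const _)
                (fun x => IT_le N _ _ (fun i => (hg.meas i.succ).comp (measurable_cn_right x)))
          _ = 1 := by simp
      have h5 : 0 ≤ ∫ x, IT ν M N (sg g x) (A + am ν g ^ 2) ∂ν :=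
        integral_nonneg fun x => IT_nonneg N _ _
      nlinarith [sq_nonneg (am ν g)]
    · push Not at h1
      linarith

end

end Pool.Agent.W_7d29a1_h42
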